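import Pool.Agent.H891R2.MT.T1a

set_option autoImplicit false

/-! Task T1b (helper332): the state sum of the whole diagram. -/

namespace Pool.Agent.H891R2.MT.T1b

open Finset LaurentPolynomial Pool.Agent.H891R2.Jones T1a

variable {k : ℕ}

theorem prod_flatMap {α : Type*} (l : List α) (f : α → List ℂ) :
    (l.flatMap f).prod = (l.map (fun a => (f a).prod)).prod := by
  induction l with
  | nil => rfl
  | cons a l ih => simp [List.flatMap_cons, ih]

theorem fun_eq_iff {N : ℕ} (x y : Bool → Fin N) : x = y ↔ x true = y true ∧ x false = y false := by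
  constructor
  · rintro rfl; exact ⟨rfl, rfl⟩
  · rintro ⟨h1, h2⟩
    funext b
    cases b
    · exact h2
    · exact h1

/-- one crossing -/
theorem crossW_eq (n : Fin k → ℤ) (A : ℂ) {N : ℕ} (col : Ribbon.Pt n → Fin N) (e : Fin k)
    (j : Fin (n e).natAbs) :
    crossW A col (⟨(Ribbon.twistCrossing n e j).1, (Ribbon.twistCrossing n e j).2.1,
      (Ribbon.twistCrossing n e j).2.2.1, (Ribbon.twistCrossing n e j).2.2.2, true, true⟩ :
        Crossing (Ribbon.Pt n)) =
      stepW A (decide (0 < n e)) (fun s => col ⟨e, (j.castSucc, s)⟩)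
        (fun s => col ⟨e, (j.succ, s)⟩) := by
  unfold crossW stepW Ribbon.twistCrossing
  by_cases h : 0 < n e
  · simp only [h, if_true, decide_true]
    congr 2
    · apply ind_congr
      rw [fun_eq_iff]
      constructor
      · rintro ⟨h1, h2⟩; exact ⟨h2.symm, h1⟩
      · rintro ⟨h1, h2⟩; exact ⟨h2, h1.symm⟩
    · apply ind_congr
      constructor
      · rintro ⟨h1, h2⟩; exact ⟨h2, h1.symm⟩
      · rintro ⟨h1, h2⟩; exact ⟨h2.symm, h1⟩
  · simp only [h, if_false, decide_false, Bool.false_eq_true]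
    rw [add_comm]
    congr 2
    · apply ind_congr
      rw [fun_eq_iff]
      constructor
      · rintro ⟨h1, h2⟩; exact ⟨h2.symm, h1⟩
      · rintro ⟨h1, h2⟩; exact ⟨h2, h1.symm⟩
    · apply ind_congr
      constructor
      · rintro ⟨h1, h2⟩; exact ⟨h1, h2.symm⟩
      · rintro ⟨h1, h2⟩; exact ⟨h1, h2.symm⟩

theorem crossings_prod (Γ : Ribbon k) (n : Fin k → ℤ) (A : ℂ) {N : ℕ}
    (col : Ribbon.Pt n → Fin N) :
    ((Γ.link n).std.crossings.map (crossW A col)).prod =
      ∏ e : Fin k, ∏ j : Fin (n e).natAbs, stepW A (decide (0 < n e))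
        (fun s => col ⟨e, (j.castSucc, s)⟩) (fun s => col ⟨e, (j.succ, s)⟩) := by
  unfold UDiagram.std Ribbon.link
  simp only [List.map_map, List.map_flatMap]
  rw [prod_flatMap, Fin.prod_univ_def]
  congr 1
  apply List.map_congr_left
  intro e _
  rw [Fin.prod_univ_def]
  congr 1
  apply List.map_congr_left
  intro j _
  exact crossW_eq n A col e j

/-- the colours of the corners -/
def cc {N : ℕ} (y : Fin k → (Bool → Fin N) × (Bool → Fin N)) : (Fin k × Bool) × Bool → Fin N :=
  fun x => if x.1.2 then (y x.1.1).2 (!x.2) else (y x.1.1).1 x.2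

def ccEquiv (k N : ℕ) : (Fin k → (Bool → Fin N) × (Bool → Fin N)) ≃
    ((Fin k × Bool) × Bool → Fin N) where
  toFun := cc
  invFun c := fun e => (fun s => c ((e, false), s), fun s => c ((e, true), !s))
  left_inv y := by
    funext e
    simp [cc]
  right_inv c := by
    funext x
    obtain ⟨⟨e, b⟩, s⟩ := x
    cases b <;> simp [cc]

def lvEquiv (n : Fin k → ℤ) (N : ℕ) : (Ribbon.Pt n → Fin N) ≃
    (∀ e : Fin k, Fin ((n e).natAbs + 1) → Bool → Fin N) where
  toFun col := fun e i s => col ⟨e, (i, s)⟩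
  invFun z := fun p => z p.1 p.2.1 p.2.2
  left_inv _ := rfl
  right_inv _ := rfl

/-- the end colours -/
def eds (n : Fin k → ℤ) {N : ℕ} (z : ∀ e : Fin k, Fin ((n e).natAbs + 1) → Bool → Fin N) :
    Fin k → (Bool → Fin N) × (Bool → Fin N) := fun e => (z e 0, z e (Fin.last _))

theorem arcs_ind (Γ : Ribbon k) (n : Fin k → ℤ) {N : ℕ} (col : Ribbon.Pt n → Fin N) :
    ((Γ.link n).std.arcs.map (arcW col)).prod =
      ind (∀ d : Fin k × Bool, cc (eds n (lvEquiv n N col)) (d, true) =
        cc (eds n (lvEquiv n N col)) (Γ.rot d, false)) := by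
  have hl : ∀ d : Fin k × Bool, col (Ribbon.left n d) = cc (eds n (lvEquiv n N col)) (d, true) := by
    rintro ⟨e, b⟩
    cases b <;> rfl
  have hr : ∀ d : Fin k × Bool, col (Ribbon.right n d) =
      cc (eds n (lvEquiv n N col)) (d, false) := by
    rintro ⟨e, b⟩
    cases b <;> rfl
  rw [arcs_prod]
  apply ind_congr
  simp only [← hl, ← hr]
  unfold UDiagram.std Ribbon.link
  simp only [List.mem_flatMap, List.mem_finRange, true_and, List.mem_cons, List.not_mem_nil,
    or_false]
  constructor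
  · rintro h ⟨e, b⟩
    cases b
    · exact h _ ⟨e, Or.inl rfl⟩
    · exact h _ ⟨e, Or.inr rfl⟩
  · rintro h x ⟨e, rfl | rfl⟩
    · exact h (e, false)
    · exact h (e, true)

theorem sum_ind {ι : Type*} [Fintype ι] (P : ι → Prop) :
    ∑ c : ι, ind (P c) = (Nat.card {c : ι // P c} : ℂ) := by
  classical
  rw [Nat.card_eq_fintype_card, Fintype.card_subtype, Finset.card_eq_sum_ones, Nat.cast_sum,
    Finset.sum_filter]
  refine Finset.sum_congr rfl fun x _ => ?_
  unfold ind
  by_cases hx : P x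
  · rw [if_pos hx, if_pos hx]; simp
  · rw [if_neg hx, if_neg hx]

theorem cor_iff (Γ : Ribbon k) {N : ℕ} (S : Finset (Fin k))
    (y : Fin k → (Bool → Fin N) × (Bool → Fin N)) :
    ((∀ d : Fin k × Bool, cc y (d, true) = cc y (Γ.rot d, false)) ∧
      (∀ e ∈ S, (y e).1 = (y e).2) ∧
      (∀ e ∈ Finset.univ \ S, (y e).1 true = (y e).1 false ∧ (y e).2 true = (y e).2 false)) ↔
    ∀ p q, Γ.Cor S p q → cc y p = cc y q := by
  constructor
  · rintro ⟨h1, h2, h3⟩ ⟨⟨e, b⟩, s⟩ q (⟨hp, rfl⟩ | ⟨hp, rfl⟩ | ⟨hp, rfl⟩)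
    · simp only at hp
      subst hp
      exact h1 _
    · have h4 := h2 e hp
      cases b
      · simp [cc, flip, h4]
      · simp [cc, flip, h4]
    · have h4 := h3 e (Finset.mem_sdiff.2 ⟨Finset.mem_univ _, hp⟩)
      cases b <;> cases s <;> simp [cc, h4.1, h4.2]
  · intro h
    refine ⟨fun d => h _ _ (Or.inl ⟨rfl, rfl⟩), fun e he => ?_, fun e he => ?_⟩
    · funext s
      have := h ((e, false), s) (flip (e, false), !s) (Or.inr (Or.inl ⟨he, rfl⟩))
      simpa [cc, flip] using this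
    · have he' := (Finset.mem_sdiff.1 he).2
      have h1 := h ((e, false), true) ((e, false), !true) (Or.inr (Or.inr ⟨he', rfl⟩))
      have h2 := h ((e, true), true) ((e, true), !true) (Or.inr (Or.inr ⟨he', rfl⟩))
      simp only [cc, Bool.not_true, Bool.not_false, if_true] at h1 h2
      exact ⟨by simpa using h1, h2.symm⟩

theorem transfer (Γ : Ribbon k) (n : Fin k → ℤ) {A : ℂ} (hA : A ≠ 0) {N : ℕ} (hN : N ≠ 0)
    (hNA : (N : ℂ) = -A^2 - A⁻¹^2) :
    ∑ col : Ribbon.Pt n → Fin N, WW A (Γ.link n).std.arcs (Γ.link n).std.crossings col =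
      ∑ S : Finset (Fin k), (∏ e ∈ S, A ^ n e) * (∏ e ∈ Sᶜ, gg A N (n e)) * (N : ℂ) ^ Γ.curves S := by
  classical
  set G : (Fin k → (Bool → Fin N) × (Bool → Fin N)) → Prop := fun y =>
    ∀ d : Fin k × Bool, cc y (d, true) = cc y (Γ.rot d, false) with hG
  set w : ∀ e : Fin k, (Fin ((n e).natAbs + 1) → Bool → Fin N) → ℂ := fun e x =>
    ∏ j : Fin (n e).natAbs, stepW A (decide (0 < n e)) (x j.castSucc) (x j.succ) with hw
  have h1 : ∑ col : Ribbon.Pt n → Fin N, WW A (Γ.link n).std.arcs (Γ.link n).std.crossings col =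
      ∑ z : (∀ e : Fin k, Fin ((n e).natAbs + 1) → Bool → Fin N),
        ind (G (eds n z)) * ∏ e, w e (z e) := by
    rw [← Equiv.sum_comp (lvEquiv n N)]
    refine Finset.sum_congr rfl fun col _ => ?_
    unfold WW
    rw [arcs_ind, crossings_prod]
    rfl
  have h2 : ∀ z : (∀ e : Fin k, Fin ((n e).natAbs + 1) → Bool → Fin N),
      ind (G (eds n z)) * ∏ e, w e (z e) =
      ∑ y : Fin k → (Bool → Fin N) × (Bool → Fin N), ind (G y) *
        ∏ e, (ind (z e 0 = (y e).1 ∧ z e (Fin.last _) = (y e).2) * w e (z e)) := by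
    intro z
    rw [Finset.sum_eq_single (eds n z)]
    · congr 1
      refine Finset.prod_congr rfl fun e _ => ?_
      rw [ind_pos ⟨rfl, rfl⟩, one_mul]
    · intro y _ hy
      have : ∃ e, ¬ (z e 0 = (y e).1 ∧ z e (Fin.last _) = (y e).2) := by
        by_contra hcon
        push Not at hcon
        apply hy
        funext e
        exact (Prod.ext (hcon e).1 (hcon e).2).symm
      obtain ⟨e, he⟩ := this
      rw [Finset.prod_eq_zero (Finset.mem_univ e) (by rw [ind_neg he, zero_mul]), mul_zero]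
    · intro h
      exact absurd (Finset.mem_univ _) h
  have h3 : ∀ y : Fin k → (Bool → Fin N) × (Bool → Fin N),
      ∑ z : (∀ e : Fin k, Fin ((n e).natAbs + 1) → Bool → Fin N),
        ∏ e, (ind (z e 0 = (y e).1 ∧ z e (Fin.last _) = (y e).2) * w e (z e)) =
      ∏ e, (A ^ n e * ind ((y e).1 = (y e).2) +
        gg A N (n e) * ind ((y e).1 true = (y e).1 false ∧ (y e).2 true = (y e).2 false)) := by
    intro y
    rw [← Fintype.piFinset_univ, ← Finset.prod_univ_sum (fun e => Finset.univ)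
      (fun e x => ind (x 0 = (y e).1 ∧ x (Fin.last _) = (y e).2) * w e x)]
    exact Finset.prod_congr rfl fun e _ => band_sum hA hN hNA (n e) (y e).1 (y e).2
  rw [h1, Finset.sum_congr rfl fun z _ => h2 z, Finset.sum_comm]
  have h6 : ∀ y : Fin k → (Bool → Fin N) × (Bool → Fin N),
      ∑ z : (∀ e : Fin k, Fin ((n e).natAbs + 1) → Bool → Fin N), ind (G y) *
        ∏ e, (ind (z e 0 = (y e).1 ∧ z e (Fin.last _) = (y e).2) * w e (z e)) =
      ∑ S : Finset (Fin k), ind (G y) * ((∏ e ∈ S, A ^ n e * ind ((y e).1 = (y e).2)) *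
        ∏ e ∈ Finset.univ \ S, gg A N (n e) *
          ind ((y e).1 true = (y e).1 false ∧ (y e).2 true = (y e).2 false)) := by
    intro y
    rw [← Finset.mul_sum, h3 y, Finset.prod_add, Finset.mul_sum, Finset.powerset_univ]
  rw [Finset.sum_congr rfl fun y _ => h6 y, Finset.sum_comm]
  refine Finset.sum_congr rfl fun S _ => ?_
  have h4 : ∀ y : Fin k → (Bool → Fin N) × (Bool → Fin N),
      ind (G y) * ((∏ e ∈ S, A ^ n e * ind ((y e).1 = (y e).2)) *
        ∏ e ∈ Finset.univ \ S, gg A N (n e) *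
          ind ((y e).1 true = (y e).1 false ∧ (y e).2 true = (y e).2 false)) =
      (∏ e ∈ S, A ^ n e) * (∏ e ∈ Sᶜ, gg A N (n e)) *
        ind (∀ p q, Γ.Cor S p q → cc y p = cc y q) := by
    intro y
    rw [Finset.prod_mul_distrib, Finset.prod_mul_distrib, prod_ind, prod_ind,
      ← ind_congr (cor_iff Γ S y), ← ind_mul, ← ind_mul, Finset.compl_eq_univ_sdiff]
    ring
  rw [Finset.sum_congr rfl fun y _ => h4 y, ← Finset.mul_sum]
  congr 1
  have h5 : ∑ y : Fin k → (Bool → Fin N) × (Bool → Fin N),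
      ind (∀ p q, Γ.Cor S p q → cc y p = cc y q) =
      ∑ c : (Fin k × Bool) × Bool → Fin N, ind (∀ p q, Γ.Cor S p q → c p = c q) :=
    Equiv.sum_comp (ccEquiv k N)
      (fun c : (Fin k × Bool) × Bool → Fin N => ind (∀ p q, Γ.Cor S p q → c p = c q))
  rw [h5, sum_ind, card_colourings]
  unfold Ribbon.curves
  push_cast
  rfl

end Pool.Agent.H891R2.MT.T1b
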