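import Pool.Agent.H891R2.MT.T7

set_option autoImplicit false

/-! Lacunary twist numbers. -/

namespace Pool.Agent.H891R2.MT

open Finset LaurentPolynomial Pool.Agent.H891R2.Jones

variable {k : ℕ}

/-- no edge of `S` is a bridge of the spanning subgraph with edge set `S` -/
def Ribbon.Bridgeless (Γ : Ribbon k) (S : Finset (Fin k)) : Prop :=
  ∀ e ∈ S, Γ.comps (S.erase e) = Γ.comps S

namespace T8

open T4b

theorem sum_monic_ne_zero {ι : Type} [DecidableEq ι] (F : Finset ι) (c : ι → Polynomial ℤ)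
    (hc : ∀ S ∈ F, c S = 0 ∨ (c S).Monic) (hne : ∃ S ∈ F, c S ≠ 0) : ∑ S ∈ F, c S ≠ 0 := by
  set G := F.filter (fun S => c S ≠ 0) with hG
  have hGne : G.Nonempty := by
    obtain ⟨S, hS, h⟩ := hne
    exact ⟨S, Finset.mem_filter.2 ⟨hS, h⟩⟩
  obtain ⟨S0, hS0, hmax⟩ := G.exists_max_image (fun S => (c S).natDegree) hGne
  have hS0' := Finset.mem_filter.1 hS0
  have hm : ∀ S ∈ G, (c S).Monic := fun S hS => 
    (hc S (Finset.mem_filter.1 hS).1).resolve_left (Finset.mem_filter.1 hS).2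
  intro h
  have h1 : ∑ S ∈ F, c S = ∑ S ∈ G, c S := by
    rw [hG, Finset.sum_filter_ne_zero]
  rw [h1] at h
  have h2 := congrArg (fun p => p.coeff (c S0).natDegree) h
  simp only [Polynomial.finsetSum_coeff, Polynomial.coeff_zero] at h2
  have h3 : ∀ S ∈ G, 0 ≤ (c S).coeff (c S0).natDegree := by
    intro S hS
    rcases (hmax S hS).lt_or_eq with hlt | heq
    · rw [Polynomial.coeff_eq_zero_of_natDegree_lt hlt]
    · rw [← heq, (hm S hS).coeff_natDegree]
      norm_num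
  have h4 := (Finset.sum_eq_zero_iff_of_nonneg h3).1 h2 S0 hS0
  rw [(hm S0 hS0).coeff_natDegree] at h4
  exact one_ne_zero h4

/-- coefficients of the total sum near every value -/
theorem value_coeff (c : Finset (Fin k) → Polynomial ℤ) (D C : ℕ)
    (hc : ∀ S, c S = 0 ∨ (c S).Monic) (hD : ∀ S, (c S).natDegree ≤ D) (hC : 2 * D ≤ C)
    (n : Fin k → ℤ) 
    (hgap : ∀ S S', c S ≠ 0 → c S' ≠ 0 → |nS n S - nS n S'| ≤ C → nS n S = nS n S')
    (S1 : Finset (Fin k)) (hS1 : c S1 ≠ 0) : 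
    ∃ j, 4 * nS n S1 - 4 * D ≤ j ∧ j ≤ 4 * nS n S1 + 4 * D ∧ (∑ S, term c n S).coeff j ≠ 0 := by
  classical
  set F := (Finset.univ : Finset (Finset (Fin k))).filter (fun S => nS n S = nS n S1) with hF
  have hp : ∑ S ∈ F, c S ≠ 0 := sum_monic_ne_zero F c (fun S _ => hc S) 
    ⟨S1, Finset.mem_filter.2 ⟨Finset.mem_univ _, rfl⟩, hS1⟩
  have h1 : ∑ S ∈ F, term c n S = T4a.W (nS n S1) * 
      Polynomial.aeval ((-T 2 - T (-2)) ^ 2 : ℤ[T;T⁻¹]) (∑ S ∈ F, c S) := by
    rw [map_sum, Finset.mul_sum]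
    refine Finset.sum_congr rfl fun S hS => ?_
    unfold term T4a.W
    rw [(Finset.mem_filter.1 hS).2]
  have h2 : ∑ S ∈ F, term c n S ≠ 0 := by
    rw [h1]
    refine mul_ne_zero ?_ (fun h => hp (T4a.eq_zero_of_aeval _ h))
    intro h
    have h3 : T4a.W (nS n S1) * T4a.W (-nS n S1) = 1 := by 
      rw [← T4a.W_add, add_neg_cancel, T4a.W_zero]
    rw [h, zero_mul] at h3
    exact zero_ne_one h3
  obtain ⟨j, hj⟩ : ∃ j, (∑ S ∈ F, term c n S).coeff j ≠ 0 := by
    by_contra hcon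
    push Not at hcon
    exact h2 (LaurentPolynomial.ext hcon)
  have hz : ∀ S, c S = 0 → term c n S = 0 := by
    intro S hS
    unfold term
    rw [hS, map_zero, mul_zero]
  have hj2 := (SIn.sum F (term c n) (lo := 4 * nS n S1 - 4 * D) (hi := 4 * nS n S1 + 4 * D)
    (fun S hS => by
      have := SIn_term hD n S
      rw [(Finset.mem_filter.1 hS).2] at this
      exact this)) j hj
  refine ⟨j, hj2.1, hj2.2, ?_⟩
  have h3 : (∑ S, term c n S).coeff j = (∑ S ∈ F, term c n S).coeff j := by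
    rw [AddMonoidAlgebra.coeff_sum, AddMonoidAlgebra.coeff_sum, Finsupp.finsetSum_apply, 
      Finsupp.finsetSum_apply]
    symm
    apply Finset.sum_subset (Finset.subset_univ _)
    intro S _ hS
    by_contra hne
    have h4 : c S ≠ 0 := by
      intro h
      apply hne
      rw [hz S h]
      rfl
    have h5 := SIn_term hD n S j hne
    apply hS
    refine Finset.mem_filter.2 ⟨Finset.mem_univ _, hgap S S1 h4 hS1 ?_⟩
    rw [abs_le]
    have : (2 * D : ℤ) ≤ C := by exact_mod_cast hC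
    omega
  rw [h3]
  exact hj

/-- all values are equal -/
theorem values_eq (c : Finset (Fin k) → Polynomial ℤ) (D M C : ℕ)
    (hc : ∀ S, c S = 0 ∨ (c S).Monic) (hD : ∀ S, (c S).natDegree ≤ D) (hC : 2 * D + M ≤ C)
    (n : Fin k → ℤ) 
    (hgap : ∀ S S', c S ≠ 0 → c S' ≠ 0 → |nS n S - nS n S'| ≤ C → nS n S = nS n S')
    (g : ℤ[T;T⁻¹]) (lo hi : ℤ) (hg : SIn g lo hi) (hlh : hi - lo ≤ 4 * M)
    (h : ∑ S : Finset (Fin k), ((-1 : ℤ[T;T⁻¹]) ^ (nS n S).natAbs * T (4 * nS n S)) *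
        Polynomial.aeval ((-T 2 - T (-2)) ^ 2 : ℤ[T;T⁻¹]) (c S) = g)
    (S1 S2 : Finset (Fin k)) (hS1 : c S1 ≠ 0) (hS2 : c S2 ≠ 0) : nS n S1 = nS n S2 := by
  have h' : ∑ S, term c n S = g := h
  obtain ⟨j1, a1, b1, c1⟩ := value_coeff c D C hc hD (by omega) n hgap S1 hS1
  obtain ⟨j2, a2, b2, c2⟩ := value_coeff c D C hc hD (by omega) n hgap S2 hS2
  rw [h'] at c1 c2
  have d1 := hg j1 c1
  have d2 := hg j2 c2
  apply hgap S1 S2 hS1 hS2
  have : (2 * D + M : ℤ) ≤ C := by exact_mod_cast hC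
  rw [abs_le]
  omega

theorem sum_cpoly (Γ : Ribbon k) : 
    ∑ S : Finset (Fin k), Γ.cpoly S = Polynomial.X ^ (k + Γ.comps univ) := by
  classical
  unfold Ribbon.cpoly
  have h1 : ∑ S : Finset (Fin k), ∑ R ∈ S.powerset, 
      (-1 : Polynomial ℤ) ^ (S.card - R.card) * Polynomial.X ^ (R.card + Γ.comps R) = 
      ∑ R : Finset (Fin k), ∑ S ∈ univ.filter (fun S => R ⊆ S), 
      (-1 : Polynomial ℤ) ^ (S.card - R.card) * Polynomial.X ^ (R.card + Γ.comps R) := by
    apply Finset.sum_comm'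
    intro S R
    simp [Finset.mem_powerset]
  rw [h1, Finset.sum_eq_single univ]
  · have : univ.filter (fun S : Finset (Fin k) => univ ⊆ S) = {univ} := by
      ext S
      simp [Finset.univ_subset_iff]
    rw [this, Finset.sum_singleton, Finset.card_univ, Fintype.card_fin]
    simp
  · intro R _ hR
    rw [← Finset.sum_mul]
    have h2 : ∑ S ∈ univ.filter (fun S => R ⊆ S), (-1 : Polynomial ℤ) ^ (S.card - R.card) = 0 := by
      have h3 : ∑ S ∈ univ.filter (fun S => R ⊆ S), (-1 : Polynomial ℤ) ^ (S.card - R.card) = 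
          ∑ U ∈ (Rᶜ).powerset, (-1 : Polynomial ℤ) ^ U.card := by
        symm
        refine Finset.sum_bij' (fun U _ => R ∪ U) (fun S _ => S \ R) ?_ ?_ ?_ ?_ ?_
        · intro U _
          simp
        · intro S _
          rw [Finset.mem_powerset]
          intro x hx
          rw [Finset.mem_compl]
          exact (Finset.mem_sdiff.1 hx).2
        · intro U hU
          rw [Finset.mem_powerset] at hU
          have : Disjoint R U := by
            rw [Finset.disjoint_left]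
            intro x hx hx'
            exact (Finset.mem_compl.1 (hU hx')) hx
          rw [Finset.union_sdiff_cancel_left this]
        · intro S hS
          exact Finset.union_sdiff_of_subset (Finset.mem_filter.1 hS).2
        · intro U hU
          rw [Finset.mem_powerset] at hU
          have : Disjoint R U := by
            rw [Finset.disjoint_left]
            intro x hx hx'
            exact (Finset.mem_compl.1 (hU hx')) hx
          rw [Finset.card_union_of_disjoint this, Nat.add_sub_cancel_left]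
      rw [h3]
      have h4 := Finset.sum_powerset_neg_one_pow_card (x := Rᶜ)
      rw [if_neg (fun h5 => hR ((Finset.compl_eq_empty_iff R).1 h5))] at h4
      have h6 := congrArg (fun z : ℤ => (z : Polynomial ℤ)) h4
      push_cast at h6
      exact h6
    rw [h2, zero_mul]
  · intro h
    exact absurd (Finset.mem_univ _) h

theorem coeff_mul_T (f : ℤ[T;T⁻¹]) (m a : ℤ) : (f * T m).coeff a = f.coeff (a - m) := by
  have h := AddMonoidAlgebra.coeff_mul_single_eq_coeff_mul (r := (1 : ℤ)) (x := f) (m := m) 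
    (m₁ := a) (a - m) (fun m' _ => by constructor <;> intro h <;> omega)
  rw [mul_one] at h
  exact h

theorem coeff_d_pow (j : ℕ) : ((-T 2 - T (-2) : ℤ[T;T⁻¹]) ^ j).coeff (2 * j) ≠ 0 := by
  induction j with
  | zero => 
    rw [pow_zero]
    have := C_apply (R := ℤ) 1 0
    rw [map_one] at this
    simp [this]
  | succ j ih =>
    have h1 : (-T 2 - T (-2) : ℤ[T;T⁻¹]) ^ (j + 1) = 
        -((-T 2 - T (-2)) ^ j * T 2) + -((-T 2 - T (-2)) ^ j * T (-2)) := by ring
    rw [h1, AddMonoidAlgebra.coeff_add, Finsupp.add_apply, AddMonoidAlgebra.coeff_neg, 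
      AddMonoidAlgebra.coeff_neg, Finsupp.neg_apply, Finsupp.neg_apply, coeff_mul_T, coeff_mul_T]
    have h2 : ((-T 2 - T (-2) : ℤ[T;T⁻¹]) ^ j).coeff (2 * ((j + 1 : ℕ) : ℤ) - -2) = 0 := by
      by_contra h
      have := (SIn_d.pow j _ h).2
      push_cast at this
      omega
    rw [h2]
    have h3 : (2 * ((j + 1 : ℕ) : ℤ) - 2) = 2 * j := by push_cast; ring
    rw [h3]
    intro h
    apply ih
    linarith

theorem coeff_d_pow' (j : ℕ) : ((-T 2 - T (-2) : ℤ[T;T⁻¹]) ^ j).coeff (-(2 * j)) ≠ 0 := by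
  have h1 : LaurentPolynomial.invert ((-T 2 - T (-2) : ℤ[T;T⁻¹]) ^ j) = (-T 2 - T (-2)) ^ j := by
    simp only [map_pow, map_sub, map_neg, LaurentPolynomial.invert_T, neg_neg]
    congr 1
    ring
  rw [← LaurentPolynomial.invert_apply, h1]
  exact coeff_d_pow j

end T8

theorem cpoly_ne_zero_iff (Γ : Ribbon k) (S : Finset (Fin k)) : Γ.cpoly S ≠ 0 → Γ.Bridgeless S := by
  intro h e he
  by_contra h1
  have h2 := comps_erase Γ S e he
  exact h (cpoly_bridge Γ S e he (by omega))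

theorem card_add_comps_le (Γ : Ribbon k) (S : Finset (Fin k)) : 
    S.card + Γ.comps S ≤ k + Γ.comps univ := by
  obtain ⟨m, hm⟩ : ∃ m, m + S.card = k := ⟨k - S.card, by have := card_finset_fin_le S; omega⟩
  induction m generalizing S with
  | zero =>
    have : S = univ := by
      apply Finset.eq_univ_of_card
      rw [Fintype.card_fin]
      omega
    rw [this, Finset.card_univ, Fintype.card_fin]
  | succ m ih =>
    obtain ⟨e, he⟩ : ∃ e, e ∉ S := by
      by_contra hcon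
      push Not at hcon
      have : S = univ := by
        ext x
        simp [hcon x]
      rw [this, Finset.card_univ, Fintype.card_fin] at hm
      omega
    have h1 := ih (insert e S) (by rw [Finset.card_insert_of_notMem he]; omega)
    have h2 := comps_erase Γ (insert e S) e (Finset.mem_insert_self _ _)
    rw [Finset.erase_insert he] at h2
    rw [Finset.card_insert_of_notMem he] at h1
    omega

/-- the lacunary theorem -/
theorem lacunary (Γ : Ribbon k) (hΓ : Γ.Planar) (hk0 : 0 < k) (hk : Γ.verts ≤ k) 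
    (n : Fin k → ℤ)
    (hn : ∀ S S' : Finset (Fin k), Γ.Bridgeless S → Γ.Bridgeless S' → 
      |∑ e ∈ S, n e - ∑ e ∈ S', n e| ≤ 4 * k + 3 → ∑ e ∈ S, n e = ∑ e ∈ S', n e) :
    ¬ SpanLE (k - Γ.verts) (Γ.link n) := by
  intro h
  have hne : Nonempty (Ribbon.Pt n) := ⟨⟨⟨0, hk0⟩, 0, true⟩⟩
  obtain ⟨lo, hb⟩ := T7.bracket_span _ _ h
  have hid := identity Γ hΓ hk0 n
  have hd : T4b.SIn ((-T 2 - T (-2) : ℤ[T;T⁻¹]) ^ (1 + (Γ.verts + k))) (-2 * (1 + (Γ.verts + k) : ℕ))
      (2 * (1 + (Γ.verts + k) : ℕ)) := by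
    refine (T4b.SIn_d.pow _).mono ?_ ?_ <;> linarith
  have hg := (((T4b.SIn_sgn (nS n univ).natAbs).mul (T4b.SIn.T (3 * nS n univ))).mul hd).mul hb
  have h6 : ((k - Γ.verts : ℕ) : ℤ) = k - Γ.verts := by
    rw [Nat.cast_sub hk]
  have hv := T8.values_eq Γ.cpoly (k + 1) (2 * k + 1) (4 * k + 3)
    (fun S => (cpoly_zero_or_monic Γ S).imp id And.left)
    (fun S => by
      rcases cpoly_zero_or_monic Γ S with h1 | ⟨_, h1⟩
      · rw [h1]; simp
      · rw [h1]
        have h2 := card_add_comps_le Γ S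
        rw [hΓ.1] at h2
        exact h2) (by omega) n 
    (fun S S' h1 h2 h3 => hn S S' (cpoly_ne_zero_iff Γ S h1) (cpoly_ne_zero_iff Γ S' h2) 
      (by push_cast at h3; exact h3)) _ _ _ hg (by rw [h6]; push_cast; linarith) hid
  have h0 : Γ.cpoly ∅ ≠ 0 := (cpoly_monic Γ ∅ (fun e he => absurd he (Finset.notMem_empty _))).1.ne_zero
  have hz : ∀ S, Γ.cpoly S ≠ 0 → nS n S = 0 := by
    intro S hS
    rw [hv S ∅ hS h0]
    simp [nS]
  have hsum : ∑ S : Finset (Fin k), ((-1 : ℤ[T;T⁻¹]) ^ (nS n S).natAbs * T (4 * nS n S)) * 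
        Polynomial.aeval ((-T 2 - T (-2)) ^ 2 : ℤ[T;T⁻¹]) (Γ.cpoly S) = 
      (-T 2 - T (-2)) ^ (2 * k + 2) := by
    have h1 : ∀ S : Finset (Fin k), ((-1 : ℤ[T;T⁻¹]) ^ (nS n S).natAbs * T (4 * nS n S)) * 
        Polynomial.aeval ((-T 2 - T (-2)) ^ 2 : ℤ[T;T⁻¹]) (Γ.cpoly S) = 
        Polynomial.aeval ((-T 2 - T (-2)) ^ 2 : ℤ[T;T⁻¹]) (Γ.cpoly S) := by
      intro S
      by_cases hS : Γ.cpoly S = 0
      · rw [hS, map_zero, mul_zero]
      · rw [hz S hS]
        simp
    simp only [h1]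
    rw [← map_sum, T8.sum_cpoly, hΓ.1, map_pow, Polynomial.aeval_X, ← pow_mul]
    congr 1
  rw [hsum] at hid
  have hdne : (-T 2 - T (-2) : ℤ[T;T⁻¹]) ≠ 0 := by
    intro h1
    have := T8.coeff_d_pow 1
    rw [pow_one, h1] at this
    exact this rfl
  have h2 : (-T 2 - T (-2) : ℤ[T;T⁻¹]) ^ (k + 1 - Γ.verts) = 
      ((-1) ^ (nS n univ).natAbs * T (3 * nS n univ)) * (Γ.link n).std.bracket := by
    apply mul_left_cancel₀ (pow_ne_zero (1 + (Γ.verts + k)) hdne)
    rw [← pow_add]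
    have : 1 + (Γ.verts + k) + (k + 1 - Γ.verts) = 2 * k + 2 := by omega
    rw [this, hid]
    ring
  have h3 := ((T4b.SIn_sgn (nS n univ).natAbs).mul (T4b.SIn.T (3 * nS n univ))).mul hb
  rw [← h2] at h3
  have h4 := h3 _ (T8.coeff_d_pow (k + 1 - Γ.verts))
  have h5 := h3 _ (T8.coeff_d_pow' (k + 1 - Γ.verts))
  have h7 : ((k + 1 - Γ.verts : ℕ) : ℤ) = k + 1 - Γ.verts := by
    rw [Nat.cast_sub (by omega)]
    push_cast
    ring
  rw [h6] at h4 h5
  rw [h7] at h4 h5
  linarith [h4.2, h5.1]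

end Pool.Agent.H891R2.MT
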