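import Pool.Agent.H891R2.MT.All

set_option autoImplicit false

namespace Pool.Agent.H891R2.MT

open Finset LaurentPolynomial Pool.Agent.H891R2.Jones

variable {k : ℕ}

theorem neg_zpow_natAbs {A : ℂ} (a : ℤ) : (-A) ^ a = (-1) ^ a.natAbs * A ^ a := by
  rw [← neg_one_mul, mul_zpow]
  congr 1
  rcases Int.natAbs_eq a with h | h
  · conv_lhs => rw [h]
    rw [zpow_natCast]
  · conv_lhs => rw [h]
    rw [zpow_neg, zpow_natCast, ← inv_pow]
    norm_num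

theorem ev_term (N : ℕ) (hN : 3 ≤ N) (a : ℤ) (p : Polynomial ℤ) :
    ev N hN (((-1 : ℤ[T;T⁻¹]) ^ a.natAbs * T (4 * a)) * 
      Polynomial.aeval ((-T 2 - T (-2)) ^ 2 : ℤ[T;T⁻¹]) p) = 
    (-(Ar N) ^ 4) ^ a * Polynomial.aeval ((N : ℂ) ^ 2) p := by
  have hd : ev N hN (-T 2 - T (-2)) = (N : ℂ) := by
    rw [map_sub, map_neg, ev_T, ev_T, Ar_d N hN, inv_pow]
    rfl
  rw [map_mul, map_mul, map_pow, map_neg, map_one, ev_T]
  congr 1
  · rw [neg_zpow_natAbs, zpow_mul]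
    rfl
  · rw [← hd, ← map_pow]
    have := Polynomial.hom_eval₂ p (algebraMap ℤ ℤ[T;T⁻¹]) (ev N hN) ((-T 2 - T (-2)) ^ 2)
    rw [Polynomial.aeval_def, Polynomial.aeval_def, this]
    congr 1
    exact Subsingleton.elim _ _

theorem comps_le_verts (Γ : Ribbon k) (S : Finset (Fin k)) : Γ.comps S ≤ Γ.verts := by
  unfold Ribbon.comps Ribbon.verts
  refine Nat.card_le_card_of_surjective 
    (Quot.lift (fun x => Quot.mk _ x) (fun x y h => Quot.sound (Or.inl h))) ?_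
  intro q
  induction q using Quot.ind with
  | mk x => exact ⟨Quot.mk _ x, rfl⟩

theorem cpoly_zero_or_monic (Γ : Ribbon k) (S : Finset (Fin k)) :
    Γ.cpoly S = 0 ∨ ((Γ.cpoly S).Monic ∧ (Γ.cpoly S).natDegree = S.card + Γ.comps S) := by
  by_cases h : ∀ e ∈ S, Γ.comps (S.erase e) = Γ.comps S
  · exact Or.inr (cpoly_monic Γ S h)
  · push Not at h
    obtain ⟨e, he, h1⟩ := h
    have h2 := comps_erase Γ S e he
    exact Or.inl (cpoly_bridge Γ S e he (by omega))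

/-- the identity of Laurent polynomials -/
theorem identity (Γ : Ribbon k) (hΓ : Γ.Planar) (hk : 0 < k) (n : Fin k → ℤ) :
    ∑ S : Finset (Fin k), ((-1 : ℤ[T;T⁻¹]) ^ (nS n S).natAbs * T (4 * nS n S)) * 
        Polynomial.aeval ((-T 2 - T (-2)) ^ 2 : ℤ[T;T⁻¹]) (Γ.cpoly S) = 
      ((-1) ^ (nS n univ).natAbs * T (3 * nS n univ)) * (-T 2 - T (-2)) ^ (1 + (Γ.verts + k)) * 
        (Γ.link n).std.bracket := by
  have hne : Nonempty (Ribbon.Pt n) := ⟨⟨⟨0, hk⟩, 0, true⟩⟩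
  apply T6.eq_of_ev
  intro N hN
  have hN0 : N ≠ 0 := by omega
  have hN1 : (N : ℂ) ≠ 0 := by exact_mod_cast hN0
  have hA := Ar_ne N hN
  have hd : ev N hN (-T 2 - T (-2)) = (N : ℂ) := by
    rw [map_sub, map_neg, ev_T, ev_T, Ar_d N hN, inv_pow]
    rfl
  have e1 := transfer Γ n hA hN0 (Ar_d N hN)
  rw [← ev_bracket N hN] at e1
  have e2 := expand Γ hΓ hN0 (fun e => (Ar N) ^ n e) (fun e => (-(Ar N)⁻¹ ^ 3) ^ n e)
  have e3 : (N : ℂ) ^ (Γ.verts + k) * ((N : ℂ) * ev N hN (Γ.link n).std.bracket) = 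
      ∑ S : Finset (Fin k), (∏ e ∈ S, (Ar N) ^ n e) * (∏ e ∈ Sᶜ, (-(Ar N)⁻¹ ^ 3) ^ n e) * 
      Polynomial.aeval ((N : ℂ) ^ 2) (Γ.cpoly S) := by
    rw [e1, ← e2]
    rfl
  rw [map_sum]
  simp only [ev_term]
  have e4 : ev N hN (((-1) ^ (nS n univ).natAbs * T (3 * nS n univ)) * (-T 2 - T (-2)) ^ (1 + (Γ.verts + k)) * 
        (Γ.link n).std.bracket) = (-(Ar N) ^ 3) ^ (nS n univ) * 
        ((N : ℂ) ^ (Γ.verts + k) * ((N : ℂ) * ev N hN (Γ.link n).std.bracket)) := by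
    rw [map_mul, map_mul, map_mul, map_pow, map_pow, map_neg, map_one, ev_T, hd, neg_zpow_natAbs, 
      zpow_mul]
    have : ((Ar N) ^ (3 : ℤ)) = (Ar N) ^ 3 := rfl
    rw [this]
    ring
  rw [e4, e3, Finset.mul_sum]
  refine Finset.sum_congr rfl fun S _ => ?_
  rw [← mul_assoc]
  congr 1
  have hA3 : (-(Ar N) ^ 3) ≠ 0 := neg_ne_zero.2 (pow_ne_zero _ hA)
  have h5 : (-(Ar N) ^ 3) ^ (nS n univ) = (∏ e ∈ S, (-(Ar N) ^ 3) ^ n e) * (∏ e ∈ Sᶜ, (-(Ar N) ^ 3) ^ n e) := by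
    rw [Finset.prod_mul_prod_compl]
    exact zpow_sum _ hA3 _
  have h6 : (-(Ar N) ^ 4) ^ (nS n S) = ∏ e ∈ S, (-(Ar N) ^ 4) ^ n e := 
    zpow_sum _ (neg_ne_zero.2 (pow_ne_zero _ hA)) _
  have h7 : (∏ e ∈ Sᶜ, (-(Ar N) ^ 3) ^ n e) * (∏ e ∈ Sᶜ, (-(Ar N)⁻¹ ^ 3) ^ n e) = 1 := by
    rw [← Finset.prod_mul_distrib]
    refine Finset.prod_eq_one fun e _ => ?_
    rw [← mul_zpow]
    have : -(Ar N) ^ 3 * -(Ar N)⁻¹ ^ 3 = 1 := by
      field_simp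
    rw [this, one_zpow]
  have h8 : (∏ e ∈ S, (-(Ar N) ^ 3) ^ n e) * (∏ e ∈ S, (Ar N) ^ n e) = ∏ e ∈ S, (-(Ar N) ^ 4) ^ n e := by
    rw [← Finset.prod_mul_distrib]
    refine Finset.prod_congr rfl fun e _ => ?_
    rw [← mul_zpow]
    congr 1
    ring
  rw [h5, h6, ← h8]
  calc (∏ e ∈ S, (-(Ar N) ^ 3) ^ n e) * (∏ e ∈ S, (Ar N) ^ n e) = 
      (∏ e ∈ S, (-(Ar N) ^ 3) ^ n e) * (∏ e ∈ S, (Ar N) ^ n e) * 
      ((∏ e ∈ Sᶜ, (-(Ar N) ^ 3) ^ n e) * (∏ e ∈ Sᶜ, (-(Ar N)⁻¹ ^ 3) ^ n e)) := by rw [h7, mul_one]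
    _ = _ := by ring

theorem two_relations (Γ : Ribbon k) (hΓ : Γ.Planar) (hk : Γ.verts + 1 ≤ k) (n : Fin k → ℤ) (c : ℕ) 
    (hc : 1 ≤ c) (h : UnlinkJones c (Γ.link n)) :
    ∃ S1 S2 S3 S4 : Finset (Fin k), 
      (∀ a b : ℤ, (∀ e, a * (chi S1 e - chi S2 e) + b * (chi S3 e - chi S4 e) = 0) → a = 0 ∧ b = 0) ∧
      |nS n S1 - nS n S2| ≤ 14 * k + c ∧ |nS n S3 - nS n S4| ≤ 14 * k + c := by
  have hk0 : 0 < k := by omega
  have hne : Nonempty (Ribbon.Pt n) := ⟨⟨⟨0, hk0⟩, 0, true⟩⟩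
  obtain ⟨m, ε, hb⟩ := T6.bracket_of_unlink c _ h
  have hid := identity Γ hΓ hk0 n
  rw [hb] at hid
  have hid2 : ∑ S : Finset (Fin k), ((-1 : ℤ[T;T⁻¹]) ^ (nS n S).natAbs * T (4 * nS n S)) * 
        Polynomial.aeval ((-T 2 - T (-2)) ^ 2 : ℤ[T;T⁻¹]) (Γ.cpoly S) = 
      C ((-1) ^ (nS n univ).natAbs * ε) * T (3 * nS n univ + m) * 
        (-T 2 - T (-2)) ^ (c + Γ.verts + k) := by
    rw [hid, map_mul, map_pow, map_neg, map_one, T_add]
    have : c + Γ.verts + k = 1 + (Γ.verts + k) + (c - 1) := by omega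
    rw [this, pow_add]
    ring
  obtain ⟨S1, S2, S3, S4, _, _, _, _, h1, h2, h3⟩ := cluster Γ.cpoly (2 * k - 1) (c + Γ.verts + k)
    (fun S => (cpoly_zero_or_monic Γ S).imp id And.left)
    (fun S => by
      rcases cpoly_zero_or_monic Γ S with h1 | ⟨_, h1⟩
      · rw [h1]; simp
      · rw [h1]
        have h2 := comps_le_verts Γ S
        have h3 := card_finset_fin_le S
        omega)
    (cpoly_three Γ hk hΓ.1) n _ _ hid2
  refine ⟨S1, S2, S3, S4, h1, h2.trans ?_, h3.trans ?_⟩ <;> push_cast <;> omega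

theorem nS_sub (n : Fin k → ℤ) (S S' : Finset (Fin k)) : 
    nS n S - nS n S' = ∑ e, (chi S e - chi S' e) * n e := by
  unfold nS chi
  simp only [sub_mul, Finset.sum_sub_distrib, ite_mul, one_mul, zero_mul, Finset.sum_ite_mem, 
    Finset.univ_inter]

theorem main (Γ : Ribbon k) (hΓ : Γ.Planar) (hk : Γ.verts + 1 ≤ k) (c : ℕ) (hc : 1 ≤ c) (N : ℕ) :
    {n : Fin k → ℤ | (∀ e, |n e| ≤ N) ∧ UnlinkJones c (Γ.link n)}.ncard ≤ 
      9 ^ k * (28 * k + 2 * c + 1) ^ 2 * (2 * N + 1) ^ (k - 2) := by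
  classical
  set I : Finset ((Fin k → ℤ) × (Fin k → ℤ)) := 
    (Fintype.piFinset (fun _ => ({-1, 0, 1} : Finset ℤ))) ×ˢ 
      (Fintype.piFinset (fun _ => ({-1, 0, 1} : Finset ℤ))) with hI
  have hIc : I.card = 9 ^ k := by
    rw [hI, Finset.card_product, Fintype.card_piFinset]
    simp only [Finset.prod_const, Finset.card_univ, Fintype.card_fin]
    rw [← mul_pow]
    rfl
  set J := I.filter (fun p => ∀ a b : ℤ, (∀ e, a * p.1 e + b * p.2 e = 0) → a = 0 ∧ b = 0) with hJ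
  set B : (Fin k → ℤ) × (Fin k → ℤ) → Set (Fin k → ℤ) := fun p => 
    {n : Fin k → ℤ | (∀ e, |n e| ≤ N) ∧ |∑ e, p.1 e * n e| ≤ (14 * k + c : ℕ) ∧ 
      |∑ e, p.2 e * n e| ≤ (14 * k + c : ℕ)} with hB
  have hfin : ∀ p, (B p).Finite := by
    intro p
    have : (Set.Finite {n : Fin k → ℤ | ∀ e, |n e| ≤ N}) := by
      have h1 : {n : Fin k → ℤ | ∀ e, |n e| ≤ N} ⊆ Set.pi Set.univ (fun _ => Set.Icc (-(N:ℤ)) N) := by
        intro n hn e _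
        exact abs_le.1 (hn e)
      exact (Set.Finite.pi' (fun _ => Set.finite_Icc _ _)).subset (by
        intro n hn e
        exact abs_le.1 (hn e))
    exact this.subset fun n hn => hn.1
  have hsub : {n : Fin k → ℤ | (∀ e, |n e| ≤ N) ∧ UnlinkJones c (Γ.link n)} ⊆ ⋃ p ∈ J, B p := by
    rintro n ⟨hn, hu⟩
    obtain ⟨S1, S2, S3, S4, h1, h2, h3⟩ := two_relations Γ hΓ hk n c hc hu
    rw [nS_sub] at h2 h3
    have hchi : ∀ (S S' : Finset (Fin k)) (e : Fin k), chi S e - chi S' e ∈ ({-1, 0, 1} : Finset ℤ) := by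
      intro S S' e
      unfold chi
      by_cases h4 : e ∈ S <;> by_cases h5 : e ∈ S' <;> simp [h4, h5]
    refine Set.mem_iUnion₂.2 ⟨(fun e => chi S1 e - chi S2 e, fun e => chi S3 e - chi S4 e), ?_, hn, ?_, ?_⟩
    · rw [hJ, Finset.mem_filter, hI, Finset.mem_product, Fintype.mem_piFinset, Fintype.mem_piFinset]
      exact ⟨⟨fun e => hchi _ _ _, fun e => hchi _ _ _⟩, h1⟩
    · push_cast
      exact h2
    · push_cast
      exact h3
  calc _ ≤ (⋃ p ∈ J, B p).ncard := Set.ncard_le_ncard hsub 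
        (Set.Finite.biUnion (Finset.finite_toSet J) (fun p _ => hfin p))
    _ ≤ ∑ p ∈ J, (B p).ncard := Finset.set_ncard_biUnion_le _ _
    _ ≤ ∑ p ∈ J, (2 * (14 * k + c) + 1) ^ 2 * (2 * N + 1) ^ (k - 2) := by
        refine Finset.sum_le_sum fun p hp => ?_
        exact count_box p.1 p.2 (Finset.mem_filter.1 hp).2 _ _
    _ = J.card * ((2 * (14 * k + c) + 1) ^ 2 * (2 * N + 1) ^ (k - 2)) := by
        rw [Finset.sum_const, smul_eq_mul]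
    _ ≤ 9 ^ k * ((2 * (14 * k + c) + 1) ^ 2 * (2 * N + 1) ^ (k - 2)) := by
        refine Nat.mul_le_mul_right _ ?_
        rw [← hIc]
        exact Finset.card_filter_le _ _
    _ = _ := by
        have : 2 * (14 * k + c) + 1 = 28 * k + 2 * c + 1 := by ring
        rw [this, mul_assoc]

end Pool.Agent.H891R2.MT
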