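import Pool.Agent.H891R2.MT.Defs

set_option autoImplicit false

namespace Pool.Agent.H891R2.MT.T2

open Finset

/-! ### number of classes -/

section classes

variable {X : Type} [Finite X]

theorem card_quot_congr {r s : X → X → Prop} (h : ∀ x y, r x y → Quot.mk s x = Quot.mk s y)
    (h' : ∀ x y, s x y → Quot.mk r x = Quot.mk r y) : Nat.card (Quot r) = Nat.card (Quot s) := by
  apply Nat.card_congr
  refine ⟨Quot.lift (fun x => Quot.mk s x) h, Quot.lift (fun x => Quot.mk r x) h', ?_, ?_⟩
  · rintro ⟨x⟩; rfl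
  · rintro ⟨x⟩; rfl

/-- adding a pair of points which are already related -/
theorem card_add_same (r : X → X → Prop) (u v : X) (h : Quot.mk r u = Quot.mk r v) :
    Nat.card (Quot (fun x y => r x y ∨ (x = u ∧ y = v))) = Nat.card (Quot r) := by
  apply card_quot_congr
  · rintro x y (hxy | ⟨rfl, rfl⟩)
    · exact Quot.sound hxy
    · exact h
  · intro x y hxy
    exact Quot.sound (Or.inl hxy)

/-- adding a pair of points which are not related -/
theorem card_add_ne (r : X → X → Prop) (u v : X) (h : Quot.mk r u ≠ Quot.mk r v) :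
    Nat.card (Quot (fun x y => r x y ∨ (x = u ∧ y = v))) + 1 = Nat.card (Quot r) := by
  classical
  set r' : X → X → Prop := fun x y => r x y ∨ (x = u ∧ y = v) with hr'
  have e : Quot r' ≃ {c : Quot r // c ≠ Quot.mk r v} := by
    refine ⟨Quot.lift (fun x => if hx : Quot.mk r x = Quot.mk r v then ⟨Quot.mk r u, h⟩ else ⟨Quot.mk r x, hx⟩) ?_,
      fun c => Quot.lift (fun x => Quot.mk r' x) (fun x y hxy => Quot.sound (Or.inl hxy)) c.1, ?_, ?_⟩
    · rintro x y (hxy | ⟨rfl, rfl⟩)
      · have : Quot.mk r x = Quot.mk r y := Quot.sound hxy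
        simp only [this]
      · simp [h]
    · rintro ⟨x⟩
      show Quot.lift (fun x => Quot.mk r' x) _ (if hx : Quot.mk r x = Quot.mk r v then (⟨Quot.mk r u, h⟩ : {c : Quot r // c ≠ Quot.mk r v}) else ⟨Quot.mk r x, hx⟩).1 = Quot.mk r' x
      by_cases hx : Quot.mk r x = Quot.mk r v
      · simp only [hx, dite_true]
        have h1 : Quot.mk r' u = Quot.mk r' v := Quot.sound (Or.inr ⟨rfl, rfl⟩)
        have h2 : Quot.mk r' x = Quot.mk r' v := by
          have := congrArg (Quot.lift (fun x => Quot.mk r' x) (fun x y hxy => Quot.sound (Or.inl hxy))) hx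
          exact this
        rw [h2]; exact h1
      · simp only [hx, dite_false]
    · rintro ⟨⟨x⟩, hx⟩
      apply Subtype.ext
      have hx' : ¬ Quot.mk r x = Quot.mk r v := hx
      show (if hx : Quot.mk r x = Quot.mk r v then (⟨Quot.mk r u, h⟩ : {c : Quot r // c ≠ Quot.mk r v}) else ⟨Quot.mk r x, hx⟩).1 = Quot.mk r x
      simp only [hx', dite_false]
  rw [Nat.card_congr e]
  have := Fintype.ofFinite (Quot r)
  rw [Nat.card_eq_fintype_card, Nat.card_eq_fintype_card, Fintype.card_subtype_compl, Fintype.card_subtype_eq]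
  have : 0 < Fintype.card (Quot r) := Fintype.card_pos_iff.2 ⟨Quot.mk r v⟩
  omega

end classes

/-! ### cycles of permutations -/

section perms

variable {X : Type} [Finite X] [DecidableEq X]

open Equiv Equiv.Perm

/-- the number of cycles -/
noncomputable def cyc (p : Perm X) : ℕ := Nat.card (Quot (fun x y => p x = y))

theorem mk_pow (p : Perm X) (x : X) (n : ℕ) :
    Quot.mk (fun x y => p x = y) ((p ^ n) x) = Quot.mk (fun x y => p x = y) x := by
  induction n with
  | zero => rfl
  | succ n ih =>
    rw [pow_succ', Perm.mul_apply]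
    rw [← ih]
    exact (Quot.sound (r := fun x y => p x = y) rfl).symm

theorem mk_eq_iff (p : Perm X) (x y : X) :
    Quot.mk (fun x y => p x = y) x = Quot.mk (fun x y => p x = y) y ↔ p.SameCycle x y := by
  constructor
  · intro h
    have hg : Relation.EqvGen (fun x y => p x = y) x y := Quot.eqvGen_exact h
    clear h
    induction hg with
    | rel x y h => exact ⟨1, by simpa using h⟩
    | refl x => exact SameCycle.refl p x
    | symm x y _ ih => exact ih.symm
    | trans x y z _ _ ih1 ih2 => exact ih1.trans ih2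
  · intro h
    obtain ⟨n, hn⟩ := h.exists_nat_pow_eq 
    rw [← hn, mk_pow]

theorem pow_agree (p : Perm X) (u v : X) (r : ℕ) (h : ∀ j, 0 < j → j < r → (p ^ j) u ≠ u ∧ (p ^ j) u ≠ v) :
    ∀ j, j < r → ((swap u v * p) ^ j) u = (p ^ j) u := by
  intro j
  induction j with
  | zero => intro _; rfl
  | succ j ih =>
    intro hj
    rw [pow_succ', Perm.mul_apply, ih (by omega), Perm.mul_apply]
    have h1 := h (j + 1) (by omega) hj
    rw [pow_succ', Perm.mul_apply] at h1
    rw [swap_apply_of_ne_of_ne h1.1 h1.2, pow_succ', Perm.mul_apply]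

theorem same_of_not (p : Perm X) (u v : X) (h : ¬ p.SameCycle u v) : (swap u v * p).SameCycle u v := by
  classical
  have hex : ∃ n, 0 < n ∧ (p ^ n) u = u := by
    refine ⟨orderOf p, orderOf_pos p, ?_⟩
    rw [pow_orderOf_eq_one]; rfl
  set r := Nat.find hex with hr
  have hr1 := (Nat.find_spec hex).1
  have hr2 := (Nat.find_spec hex).2
  have hmin : ∀ j, 0 < j → j < r → (p ^ j) u ≠ u ∧ (p ^ j) u ≠ v := by
    intro j h0 hj
    refine ⟨fun hh => Nat.find_min hex hj ⟨h0, hh⟩, fun hh => h ⟨j, by simpa using hh⟩⟩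
  have := pow_agree p u v r hmin (r - 1) (by omega)
  refine ⟨(r : ℤ), ?_⟩
  have h2 : ((swap u v * p) ^ r) u = v := by
    conv_lhs => rw [show r = (r - 1) + 1 by omega]
    rw [pow_succ', Perm.mul_apply, this, Perm.mul_apply]
    have : p ((p ^ (r - 1)) u) = u := by
      have h3 := hr2
      rw [← hr] at h3
      conv_lhs at h3 => rw [show r = (r - 1) + 1 by omega]
      rw [pow_succ', Perm.mul_apply] at h3
      exact h3
    rw [this, swap_apply_left]
  simpa using h2

theorem not_of_same (p : Perm X) (u v : X) (huv : u ≠ v) (h : p.SameCycle u v) :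
    ¬ (swap u v * p).SameCycle u v := by
  classical
  have hex : ∃ n, 0 < n ∧ (p ^ n) u = v := by
    obtain ⟨n, hn⟩ := h.exists_nat_pow_eq 
    refine ⟨n, ?_, hn⟩
    rcases Nat.eq_zero_or_pos n with h0 | h0
    · subst h0; exact absurd hn (by simpa using huv)
    · exact h0
  set r := Nat.find hex with hr
  have hr1 := (Nat.find_spec hex).1
  have hr2 := (Nat.find_spec hex).2
  rw [← hr] at hr1 hr2
  have hmin : ∀ j, 0 < j → j < r → (p ^ j) u ≠ u ∧ (p ^ j) u ≠ v := by
    intro j h0 hj
    refine ⟨fun hh => ?_, fun hh => Nat.find_min hex hj ⟨h0, hh⟩⟩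
    apply Nat.find_min hex (m := r - j) (by omega)
    refine ⟨by omega, ?_⟩
    rw [show r = (r - j) + j by omega, pow_add, Perm.mul_apply, hh] at hr2
    exact hr2
  have hag := pow_agree p u v r hmin
  have hret : ((swap u v * p) ^ r) u = u := by
    have := hag (r - 1) (by omega)
    conv_lhs => rw [show r = (r - 1) + 1 by omega]
    rw [pow_succ', Perm.mul_apply, this, Perm.mul_apply]
    have : p ((p ^ (r - 1)) u) = v := by
      have h3 := hr2
      conv_lhs at h3 => rw [show r = (r - 1) + 1 by omega]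
      rw [pow_succ', Perm.mul_apply] at h3
      exact h3
    rw [this, swap_apply_right]
  intro hs
  obtain ⟨n, hn⟩ := hs.exists_nat_pow_eq 
  have hmul : ∀ m : ℕ, ((swap u v * p) ^ (r * m)) u = u := by
    intro m
    induction m with
    | zero => simp
    | succ m ih => rw [Nat.mul_succ, pow_add, Perm.mul_apply, hret, ih]
  rw [← Nat.mod_add_div n r, pow_add, Perm.mul_apply, hmul] at hn
  rw [hag _ (Nat.mod_lt _ hr1)] at hn
  rcases Nat.eq_zero_or_pos (n % r) with h0 | h0
  · rw [h0] at hn; exact huv (by simpa using hn)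
  · exact (hmin _ h0 (Nat.mod_lt _ hr1)).2 hn

/-- the transposition lemma -/
theorem cyc_swap (p : Perm X) (u v : X) (huv : u ≠ v) :
    (p.SameCycle u v → cyc (swap u v * p) = cyc p + 1) ∧ 
    (¬ p.SameCycle u v → cyc (swap u v * p) + 1 = cyc p) := by
  have key : Nat.card (Quot (fun x y => p x = y ∨ (x = u ∧ y = v))) = 
      Nat.card (Quot (fun x y => (swap u v * p) x = y ∨ (x = u ∧ y = v))) := by
    apply card_quot_congr
    · rintro x y (rfl | ⟨rfl, rfl⟩)
      · set s : X → X → Prop := fun x y => (swap u v * p) x = y ∨ (x = u ∧ y = v)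
        have h1 : Quot.mk s x = Quot.mk s (swap u v (p x)) := Quot.sound (Or.inl rfl)
        have h2 : Quot.mk s u = Quot.mk s v := Quot.sound (Or.inr ⟨rfl, rfl⟩)
        rw [h1]
        by_cases hu : p x = u
        · rw [hu, swap_apply_left, h2]
        by_cases hv : p x = v
        · rw [hv, swap_apply_right, h2]
        rw [swap_apply_of_ne_of_ne hu hv]
      · exact Quot.sound (Or.inr ⟨rfl, rfl⟩)
    · rintro x y (rfl | ⟨rfl, rfl⟩)
      · set s : X → X → Prop := fun x y => p x = y ∨ (x = u ∧ y = v)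
        have h1 : Quot.mk s x = Quot.mk s (p x) := Quot.sound (Or.inl rfl)
        have h2 : Quot.mk s u = Quot.mk s v := Quot.sound (Or.inr ⟨rfl, rfl⟩)
        rw [h1, Perm.mul_apply]
        by_cases hu : p x = u
        · rw [hu, swap_apply_left, h2]
        by_cases hv : p x = v
        · rw [hv, swap_apply_right, h2]
        rw [swap_apply_of_ne_of_ne hu hv]
      · exact Quot.sound (Or.inr ⟨rfl, rfl⟩)
  constructor
  · intro h
    have h' := not_of_same p u v huv h
    have a1 := card_add_same (fun x y => p x = y) u v ((mk_eq_iff p u v).2 h)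
    have a2 := card_add_ne (fun x y => (swap u v * p) x = y) u v (fun hh => h' ((mk_eq_iff _ u v).1 hh))
    unfold cyc
    rw [← a1, ← a2, key]
  · intro h
    have h' := same_of_not p u v h
    have a1 := card_add_ne (fun x y => p x = y) u v (fun hh => h ((mk_eq_iff p u v).1 hh))
    have a2 := card_add_same (fun x y => (swap u v * p) x = y) u v ((mk_eq_iff _ u v).2 h')
    unfold cyc
    rw [← a1, ← a2, key]

end perms

/-! ### ribbon graphs -/

variable {k : ℕ}

open Equiv

theorem flip_flip (d : Fin k × Bool) : flip (flip d) = d := by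
  rcases d with ⟨a, b⟩; simp [flip]

/-- flips of the darts in `S` -/
def aS (S : Finset (Fin k)) : Perm (Fin k × Bool) where
  toFun d := if d.1 ∈ S then flip d else d
  invFun d := if d.1 ∈ S then flip d else d
  left_inv d := by
    by_cases h : d.1 ∈ S
    · have : (flip d).1 ∈ S := h
      simp [h, this, flip_flip]
    · simp [h]
  right_inv d := by
    by_cases h : d.1 ∈ S
    · have : (flip d).1 ∈ S := h
      simp [h, this, flip_flip]
    · simp [h]

theorem aS_apply (S : Finset (Fin k)) (d : Fin k × Bool) : aS S d = if d.1 ∈ S then flip d else d := rfl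

theorem aS_insert (S : Finset (Fin k)) (e : Fin k) (he : e ∉ S) :
    aS (insert e S) = swap (e, false) (e, true) * aS S := by
  ext1 ⟨d, b⟩
  rw [Perm.mul_apply, aS_apply, aS_apply]
  by_cases hd : d = e
  · subst hd
    simp only [Finset.mem_insert, true_or, if_true, he, if_false]
    cases b
    · rw [swap_apply_left]; rfl
    · rw [swap_apply_right]; rfl
  · have hne : ∀ b', ((d, b') : Fin k × Bool) ≠ (e, false) ∧ ((d, b') : Fin k × Bool) ≠ (e, true) := by
      intro b'; constructor <;> (intro h; exact hd (congrArg Prod.fst h))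
    simp only [Finset.mem_insert, hd, false_or]
    by_cases hS : d ∈ S
    · simp only [hS, if_true]
      show flip (d, b) = swap (e, false) (e, true) (d, !b)
      rw [swap_apply_of_ne_of_ne (hne _).1 (hne _).2]; rfl
    · simp only [hS, if_false]
      rw [swap_apply_of_ne_of_ne (hne _).1 (hne _).2]

/-- Claim 1 -/
theorem curves_cyc (Γ : Ribbon k) (S : Finset (Fin k)) : Γ.curves S = cyc (aS S * Γ.rot) := by
  symm
  unfold Ribbon.curves cyc
  apply Nat.card_congr
  refine ⟨Quot.lift (fun x => Quot.mk _ (x, true)) ?_, 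
    Quot.lift (fun z => if z.2 then Quot.mk _ z.1 else Quot.mk _ (Γ.rot.symm z.1)) ?_, ?_, ?_⟩
  · rintro x y rfl
    have h1 : Quot.mk (Γ.Cor S) (x, true) = Quot.mk (Γ.Cor S) (Γ.rot x, false) := 
      Quot.sound (Or.inl ⟨rfl, rfl⟩)
    rw [h1, Perm.mul_apply, aS_apply]
    by_cases h : (Γ.rot x).1 ∈ S
    · rw [if_pos h]; exact Quot.sound (Or.inr (Or.inl ⟨h, rfl⟩))
    · rw [if_neg h]; exact Quot.sound (Or.inr (Or.inr ⟨h, rfl⟩))
  · rintro ⟨x, b⟩ y (⟨hb, rfl⟩ | ⟨hx, rfl⟩ | ⟨hx, rfl⟩)
    · simp only at hb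
      simp [hb]
    · simp only at hx
      cases b
      · simp only [Bool.false_eq_true, if_false, Bool.not_false, if_true]
        apply Quot.sound
        rw [Perm.mul_apply, Equiv.apply_symm_apply, aS_apply, if_pos hx]
      · simp only [Bool.false_eq_true, if_false, Bool.not_true, if_true]
        symm
        apply Quot.sound
        rw [Perm.mul_apply, Equiv.apply_symm_apply, aS_apply, if_pos (show (flip x).1 ∈ S from hx), flip_flip]
    · simp only at hx
      cases b
      · simp only [Bool.false_eq_true, if_false, Bool.not_false, if_true]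
        apply Quot.sound
        rw [Perm.mul_apply, Equiv.apply_symm_apply, aS_apply, if_neg hx]
      · simp only [Bool.false_eq_true, if_false, Bool.not_true, if_true]
        symm
        apply Quot.sound
        rw [Perm.mul_apply, Equiv.apply_symm_apply, aS_apply, if_neg hx]
  · rintro ⟨x⟩
    rfl
  · rintro ⟨⟨x, b⟩⟩
    cases b
    · show Quot.mk (Γ.Cor S) (Γ.rot.symm x, true) = Quot.mk (Γ.Cor S) (x, false)
      apply Quot.sound
      refine Or.inl ⟨rfl, ?_⟩
      simp
    · rfl

/-- the relation of `comps` -/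
def RC (Γ : Ribbon k) (S : Finset (Fin k)) (x y : Fin k × Bool) : Prop :=
  Γ.rot x = y ∨ (x.1 ∈ S ∧ y = flip x)

theorem comps_insert (Γ : Ribbon k) (S : Finset (Fin k)) (e : Fin k) :
    Γ.comps (insert e S) = Nat.card (Quot (fun x y => RC Γ S x y ∨ (x = (e, false) ∧ y = (e, true)))) := by
  unfold Ribbon.comps
  apply card_quot_congr
  · rintro x y (rfl | ⟨hx, rfl⟩)
    · exact Quot.sound (Or.inl (Or.inl rfl))
    · rcases Finset.mem_insert.1 hx with h | h
      · rcases x with ⟨d, b⟩
        simp only at h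
        subst h
        cases b
        · exact Quot.sound (Or.inr ⟨rfl, rfl⟩)
        · have h1 : (d, false) = ((d, false) : Fin k × Bool) ∧ (d, true) = ((d, true) : Fin k × Bool) := ⟨rfl, rfl⟩
          symm
          exact Quot.sound (Or.inr h1)
      · exact Quot.sound (Or.inl (Or.inr ⟨h, rfl⟩))
  · rintro x y ((rfl | ⟨hx, rfl⟩) | ⟨rfl, rfl⟩)
    · exact Quot.sound (Or.inl rfl)
    · exact Quot.sound (Or.inr ⟨Finset.mem_insert_of_mem hx, rfl⟩)
    · exact Quot.sound (Or.inr ⟨Finset.mem_insert_self _ _, rfl⟩)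

theorem RC_of_cyc (Γ : Ribbon k) (S : Finset (Fin k)) (x y : Fin k × Bool) 
    (h : (aS S * Γ.rot).SameCycle x y) : Quot.mk (RC Γ S) x = Quot.mk (RC Γ S) y := by
  have h1 := (mk_eq_iff _ _ _).2 h
  have key : ∀ x y, (aS S * Γ.rot) x = y → Quot.mk (RC Γ S) x = Quot.mk (RC Γ S) y := by
    rintro x y rfl
    have h2 : Quot.mk (RC Γ S) x = Quot.mk (RC Γ S) (Γ.rot x) := Quot.sound (Or.inl rfl)
    rw [h2, Perm.mul_apply, aS_apply]
    by_cases h : (Γ.rot x).1 ∈ S
    · rw [if_pos h]; exact Quot.sound (Or.inr ⟨h, rfl⟩)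
    · rw [if_neg h]
  exact congrArg (Quot.lift (fun x => Quot.mk (RC Γ S) x) key) h1

/-- the defect -/
noncomputable def defect (Γ : Ribbon k) (S : Finset (Fin k)) : ℤ :=
  S.card - Γ.verts + 2 * Γ.comps S - Γ.curves S

theorem defect_insert (Γ : Ribbon k) (S : Finset (Fin k)) (e : Fin k) (he : e ∉ S) :
    defect Γ S ≤ defect Γ (insert e S) := by
  unfold defect
  rw [curves_cyc, curves_cyc, aS_insert S e he, Finset.card_insert_of_notMem he, comps_insert,
    show Γ.comps S = Nat.card (Quot (RC Γ S)) from rfl, mul_assoc]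
  have hne : ((e, false) : Fin k × Bool) ≠ (e, true) := by simp
  obtain ⟨h1, h2⟩ := cyc_swap (aS S * Γ.rot) (e, false) (e, true) hne
  by_cases h : (aS S * Γ.rot).SameCycle (e, false) (e, true)
  · have a1 := h1 h
    have a2 := card_add_same (RC Γ S) _ _ (RC_of_cyc Γ S _ _ h)
    rw [a1, a2]; push_cast; linarith
  · have a1 := h2 h
    have a3 : Nat.card (Quot (RC Γ S)) ≤ Nat.card (Quot (fun x y => RC Γ S x y ∨ (x = (e, false) ∧ y = (e, true)))) + 1 := by
      by_cases h4 : Quot.mk (RC Γ S) (e, false) = Quot.mk (RC Γ S) (e, true)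
      · rw [card_add_same _ _ _ h4]; omega
      · rw [card_add_ne _ _ _ h4]
    zify at a1 a3
    push_cast
    linarith

theorem defect_mono (Γ : Ribbon k) (S T : Finset (Fin k)) : defect Γ S ≤ defect Γ (T ∪ S) := by
  induction T using Finset.induction_on with
  | empty => simp
  | insert e T he ih =>
    by_cases h : e ∈ T ∪ S
    · rw [Finset.insert_union, Finset.insert_eq_of_mem h]; exact ih
    · rw [Finset.insert_union]
      exact ih.trans (defect_insert Γ _ e h)

theorem defect_empty (Γ : Ribbon k) : defect Γ ∅ = 0 := by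
  unfold defect
  have h1 : Γ.curves ∅ = Γ.verts := by
    rw [curves_cyc]
    have : aS (∅ : Finset (Fin k)) = 1 := by
      ext1 x; rw [aS_apply]; simp
    rw [this, one_mul]; rfl
  have h2 : Γ.comps ∅ = Γ.verts := by
    unfold Ribbon.comps Ribbon.verts
    congr 1
    simp
  rw [h1, h2]; simp; ring

theorem defect_univ (Γ : Ribbon k) (h : Γ.Planar) : defect Γ Finset.univ = 0 := by
  unfold defect
  have h1 : Γ.curves Finset.univ = Γ.faces := by
    rw [curves_cyc]
    unfold cyc Ribbon.faces
    apply card_quot_congr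
    · rintro x y rfl
      rw [Perm.mul_apply, aS_apply, if_pos (Finset.mem_univ _)]
      exact Quot.sound rfl
    · rintro x y rfl
      have : flip (Γ.rot x) = (aS Finset.univ * Γ.rot : Perm (Fin k × Bool)) x := by
        rw [Perm.mul_apply, aS_apply, if_pos (Finset.mem_univ _)]
      rw [this]
      exact Quot.sound rfl
  rw [h1, h.1]
  have := h.2
  zify at this
  simp only [Finset.card_univ, Fintype.card_fin]
  push_cast
  linarith

theorem curves_eq (Γ : Ribbon k) (hΓ : Γ.Planar) (S : Finset (Fin k)) :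
    (Γ.curves S : ℤ) = S.card - Γ.verts + 2 * Γ.comps S := by
  have h1 := defect_mono Γ ∅ S
  have h2 := defect_mono Γ S Finset.univ
  rw [Finset.union_empty, defect_empty] at h1
  rw [show (Finset.univ ∪ S : Finset (Fin k)) = Finset.univ from Finset.union_eq_left.2 (Finset.subset_univ S), defect_univ Γ hΓ] at h2
  unfold defect at h1 h2
  linarith

end Pool.Agent.H891R2.MT.T2
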