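import Pool.Agent.H891R2.MT.Defs

set_option autoImplicit false

/-!
T3a: the number of components of a spanning subgraph, deletion of an edge, and the polynomial `cpoly`.
-/

namespace Pool.Agent.H891R2.MT.T3a

open Finset Pool.Agent.H891R2.MT

/-- merging two classes -/
theorem quot_merge {α : Type} [Finite α] (r r' : α → α → Prop) (a b : α)
    (h1 : ∀ x y, r x y → r' x y)
    (h2 : ∀ x y, r' x y → r x y ∨ (x = a ∧ y = b) ∨ (x = b ∧ y = a)) (h3 : r' a b) :
    (Quot.mk r a = Quot.mk r b ∧ Nat.card (Quot r') = Nat.card (Quot r)) ∨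
      (Quot.mk r a ≠ Quot.mk r b ∧ Nat.card (Quot r) = Nat.card (Quot r') + 1) := by
  classical
  have : Finite (Quot r) := Finite.of_surjective (Quot.mk r) Quot.mk_surjective
  by_cases hab : Quot.mk r a = Quot.mk r b
  · left
    refine ⟨hab, ?_⟩
    let g : Quot r' → Quot r := Quot.lift (Quot.mk r) (by
      intro x y h
      rcases h2 x y h with h | ⟨rfl, rfl⟩ | ⟨rfl, rfl⟩
      · exact Quot.sound h
      · exact hab
      · exact hab.symm)
    let f : Quot r → Quot r' := Quot.lift (Quot.mk r') (fun x y h => Quot.sound (h1 x y h))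
    refine Nat.card_congr ⟨g, f, ?_, ?_⟩
    · rintro ⟨x⟩; rfl
    · rintro ⟨x⟩; rfl
  · right
    refine ⟨hab, ?_⟩
    let g0 : α → {x : Quot r // x ≠ Quot.mk r b} := fun x =>
      if h : Quot.mk r x = Quot.mk r b then ⟨Quot.mk r a, hab⟩ else ⟨Quot.mk r x, h⟩
    have hg0 : ∀ x y, Quot.mk r x = Quot.mk r y → g0 x = g0 y := by
      intro x y h
      simp only [g0, h]
    have hga : g0 a = ⟨Quot.mk r a, hab⟩ := by simp only [g0, dif_neg hab]
    have hgb : g0 b = ⟨Quot.mk r a, hab⟩ := by simp only [g0, dif_pos]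
    let g : Quot r' → {x : Quot r // x ≠ Quot.mk r b} := Quot.lift g0 (by
      intro x y h
      rcases h2 x y h with h | ⟨rfl, rfl⟩ | ⟨rfl, rfl⟩
      · exact hg0 _ _ (Quot.sound h)
      · rw [hga, hgb]
      · rw [hga, hgb])
    let f : Quot r → Quot r' := Quot.lift (Quot.mk r') (fun x y h => Quot.sound (h1 x y h))
    have e : Quot r' ≃ {x : Quot r // x ≠ Quot.mk r b} := by
      refine ⟨g, fun x => f x.1, ?_, ?_⟩
      · rintro ⟨x⟩
        show f (g0 x).1 = Quot.mk r' x
        by_cases h : Quot.mk r x = Quot.mk r b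
        · have h4 : g0 x = ⟨Quot.mk r a, hab⟩ := by simp only [g0, dif_pos h]
          rw [h4]
          have h5 : f (Quot.mk r x) = f (Quot.mk r b) := by rw [h]
          show Quot.mk r' a = Quot.mk r' x
          exact (Quot.sound h3).trans h5.symm
        · have h4 : g0 x = ⟨Quot.mk r x, h⟩ := by simp only [g0, dif_neg h]
          rw [h4]
      · rintro ⟨⟨x⟩, hx⟩
        show g0 x = _
        have h4 : g0 x = ⟨Quot.mk r x, hx⟩ := by simp only [g0, dif_neg (show ¬ Quot.mk r x = Quot.mk r b from hx)]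
        rw [h4]
    rw [Nat.card_congr e]
    have h6 := Nat.card_congr (Equiv.sumCompl (fun x : Quot r => x = Quot.mk r b))
    rw [Nat.card_sum] at h6
    have h7 : Nat.card {x : Quot r // x = Quot.mk r b} = 1 := by
      rw [Nat.card_eq_one_iff_unique]
      exact ⟨⟨fun x y => Subtype.ext (x.2.trans y.2.symm)⟩, ⟨⟨_, rfl⟩⟩⟩
    rw [h7] at h6
    rw [← h6]
    exact add_comm _ _

variable {k : ℕ}

/-- the relation of `comps` -/
def rel (Γ : Ribbon k) (S : Finset (Fin k)) (x y : Fin k × Bool) : Prop :=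
  Γ.rot x = y ∨ (x.1 ∈ S ∧ y = flip x)

theorem comps_def (Γ : Ribbon k) (S : Finset (Fin k)) : Γ.comps S = Nat.card (Quot (rel Γ S)) := rfl

theorem rel_mono (Γ : Ribbon k) {S T : Finset (Fin k)} (h : S ⊆ T) (x y : Fin k × Bool)
    (hr : rel Γ S x y) : rel Γ T x y := by
  rcases hr with hr | ⟨h1, h2⟩
  · exact Or.inl hr
  · exact Or.inr ⟨h h1, h2⟩

/-- one edge -/
theorem comps_insert (Γ : Ribbon k) (R : Finset (Fin k)) (e : Fin k) :
    (Quot.mk (rel Γ R) (e, false) = Quot.mk (rel Γ R) (e, true) ∧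
        Γ.comps (insert e R) = Γ.comps R) ∨
      (Quot.mk (rel Γ R) (e, false) ≠ Quot.mk (rel Γ R) (e, true) ∧
        Γ.comps R = Γ.comps (insert e R) + 1) := by
  rw [comps_def, comps_def]
  apply quot_merge (rel Γ R) (rel Γ (insert e R)) (e, false) (e, true)
  · exact fun x y => rel_mono Γ (Finset.subset_insert _ _) x y
  · rintro ⟨x1, x2⟩ y (h | ⟨h1, h2⟩)
    · exact Or.inl (Or.inl h)
    · rw [Finset.mem_insert] at h1
      rcases h1 with h1 | h1
      · right
        simp only at h1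
        subst h1
        subst h2
        cases x2
        · left; exact ⟨rfl, rfl⟩
        · right; exact ⟨rfl, rfl⟩
      · exact Or.inl (Or.inr ⟨h1, h2⟩)
  · exact Or.inr ⟨Finset.mem_insert_self _ _, rfl⟩

theorem comps_erase (Γ : Ribbon k) (S : Finset (Fin k)) (e : Fin k) (he : e ∈ S) :
    Γ.comps S ≤ Γ.comps (S.erase e) ∧ Γ.comps (S.erase e) ≤ Γ.comps S + 1 := by
  have h := comps_insert Γ (S.erase e) e
  rw [Finset.insert_erase he] at h
  rcases h with ⟨_, h⟩ | ⟨_, h⟩
  · rw [h]; exact ⟨le_rfl, Nat.le_succ _⟩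
  · rw [h]; exact ⟨Nat.le_succ _, le_rfl⟩

theorem cpoly_bridge (Γ : Ribbon k) (S : Finset (Fin k)) (e : Fin k) (he : e ∈ S)
    (h : Γ.comps (S.erase e) = Γ.comps S + 1) : Γ.cpoly S = 0 := by
  have hne : Quot.mk (rel Γ (S.erase e)) (e, false) ≠ Quot.mk (rel Γ (S.erase e)) (e, true) := by
    have h1 := comps_insert Γ (S.erase e) e
    rw [Finset.insert_erase he] at h1
    rcases h1 with ⟨_, h1⟩ | ⟨h1, _⟩
    · omega
    · exact h1
  unfold Ribbon.cpoly
  rw [← Finset.insert_erase he, Finset.sum_powerset_insert (Finset.notMem_erase e S),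
    ← Finset.sum_add_distrib, Finset.insert_erase he]
  apply Finset.sum_eq_zero
  intro R hR
  rw [Finset.mem_powerset] at hR
  have heR : e ∉ R := fun h2 => Finset.notMem_erase e S (hR h2)
  have hcard : R.card + 1 ≤ S.card := by
    have := Finset.card_le_card hR
    rw [Finset.card_erase_of_mem he] at this
    have h0 : 0 < S.card := Finset.card_pos.2 ⟨e, he⟩
    omega
  have hR2 : Γ.comps R = Γ.comps (insert e R) + 1 := by
    rcases comps_insert Γ R e with ⟨h2, _⟩ | ⟨_, h2⟩
    · exfalso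
      apply hne
      have := congrArg (Quot.lift (Quot.mk (rel Γ (S.erase e)))
        (fun x y h => Quot.sound (rel_mono Γ hR x y h)) : Quot (rel Γ R) → Quot (rel Γ (S.erase e))) h2
      exact this
    · exact h2
  rw [Finset.card_insert_of_notMem heR, hR2]
  obtain ⟨j, hj⟩ : ∃ j, S.card = R.card + 1 + j := ⟨S.card - (R.card + 1), by omega⟩
  rw [show S.card - R.card = j + 1 by omega, show S.card - (R.card + 1) = j by omega,
    show R.card + (Γ.comps (insert e R) + 1) = R.card + 1 + Γ.comps (insert e R) by ring, pow_succ]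
  ring

theorem mono (Γ : Ribbon k) : ∀ (m : ℕ) (R T : Finset (Fin k)), T.card ≤ R.card + m → R ⊆ T →
    R.card + Γ.comps R ≤ T.card + Γ.comps T := by
  intro m
  induction m with
  | zero =>
    intro R T hm h
    rw [Finset.eq_of_subset_of_card_le h hm]
  | succ m ih =>
    intro R T hm h
    by_cases hRT : R = T
    · rw [hRT]
    · obtain ⟨e, heT, heR⟩ := Finset.exists_of_ssubset (Finset.ssubset_iff_subset_ne.2 ⟨h, hRT⟩)
      have h1 : R ⊆ T.erase e := fun x hx => Finset.mem_erase.2 ⟨fun hxe => heR (hxe ▸ hx), h hx⟩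
      have h0 : 0 < T.card := Finset.card_pos.2 ⟨e, heT⟩
      have h2 := ih R (T.erase e) (by rw [Finset.card_erase_of_mem heT]; omega) h1
      have h3 := (comps_erase Γ T e heT).2
      rw [Finset.card_erase_of_mem heT] at h2
      omega

theorem cpoly_monic (Γ : Ribbon k) (S : Finset (Fin k))
    (h : ∀ e ∈ S, Γ.comps (S.erase e) = Γ.comps S) :
    (Γ.cpoly S).Monic ∧ (Γ.cpoly S).natDegree = S.card + Γ.comps S := by
  have h1 : Γ.cpoly S = Polynomial.X ^ (S.card + Γ.comps S) +
      ∑ R ∈ S.powerset.erase S, (-1) ^ (S.card - R.card) * Polynomial.X ^ (R.card + Γ.comps R) := by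
    unfold Ribbon.cpoly
    rw [← Finset.add_sum_erase _ _ (Finset.mem_powerset_self S)]
    simp
  have h2 : (∑ R ∈ S.powerset.erase S, (-1 : Polynomial ℤ) ^ (S.card - R.card) *
      Polynomial.X ^ (R.card + Γ.comps R)).degree < ((S.card + Γ.comps S : ℕ) : WithBot ℕ) := by
    refine (Polynomial.degree_sum_le _ _).trans_lt ?_
    rw [Finset.sup_lt_iff (WithBot.bot_lt_coe _)]
    intro R hR
    rw [Finset.mem_erase, Finset.mem_powerset] at hR
    obtain ⟨hRS, hsub⟩ := hR
    obtain ⟨e, heS, heR⟩ := Finset.exists_of_ssubset (Finset.ssubset_iff_subset_ne.2 ⟨hsub, hRS⟩)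
    have h3 : R ⊆ S.erase e := fun x hx => Finset.mem_erase.2 ⟨fun hxe => heR (hxe ▸ hx), hsub hx⟩
    have h4 := mono Γ _ R (S.erase e) (Nat.le_add_left _ _) h3
    rw [h e heS, Finset.card_erase_of_mem heS] at h4
    have h0 : 0 < S.card := Finset.card_pos.2 ⟨e, heS⟩
    have h5 : ((-1 : Polynomial ℤ) ^ (S.card - R.card) * Polynomial.X ^ (R.card + Γ.comps R)).degree ≤
        ((R.card + Γ.comps R : ℕ) : WithBot ℕ) := by
      have : (-1 : Polynomial ℤ) ^ (S.card - R.card) = Polynomial.C ((-1) ^ (S.card - R.card)) := by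
        simp
      rw [this]
      exact Polynomial.degree_C_mul_X_pow_le _ _
    refine h5.trans_lt ?_
    exact_mod_cast (by omega : R.card + Γ.comps R < S.card + Γ.comps S)
  rw [h1]
  refine ⟨Polynomial.monic_X_pow_add h2, ?_⟩
  apply Polynomial.natDegree_eq_of_degree_eq_some
  rw [Polynomial.degree_add_eq_left_of_degree_lt]
  · exact Polynomial.degree_X_pow _
  · rw [Polynomial.degree_X_pow]; exact h2

end Pool.Agent.H891R2.MT.T3a
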