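import Pool.Agent.H891R2.MT.Defs

set_option autoImplicit false

namespace Pool.Agent.H891R2.MT.T3c

open Finset Pool.Agent.H891R2.MT

variable {k : ℕ}

theorem comps_empty (Γ : Ribbon k) : Γ.comps ∅ = Γ.verts := by
  unfold Ribbon.comps Ribbon.verts
  have h : (fun x y : Fin k × Bool => Γ.rot x = y ∨ (x.1 ∈ (∅ : Finset (Fin k)) ∧ y = flip x)) =
      (fun x y : Fin k × Bool => Γ.rot x = y) := by
    funext x y
    simp
  rw [h]

/-- a subgraph with enough edges contains a nonempty bridgeless subgraph -/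
theorem exists_bridgeless (Γ : Ribbon k)
    (hce : ∀ (S : Finset (Fin k)) (e : Fin k), e ∈ S →
      Γ.comps S ≤ Γ.comps (S.erase e) ∧ Γ.comps (S.erase e) ≤ Γ.comps S + 1) (m : ℕ) :
    ∀ T : Finset (Fin k), T.card = m → Γ.verts < T.card + Γ.comps T →
      ∃ S : Finset (Fin k), S ⊆ T ∧ S.Nonempty ∧ ∀ e ∈ S, Γ.comps (S.erase e) = Γ.comps S := by
  induction m with
  | zero =>
    intro T hT h
    rw [Finset.card_eq_zero] at hT
    subst hT
    rw [comps_empty, Finset.card_empty, zero_add] at h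
    exact absurd h (lt_irrefl _)
  | succ m ih =>
    intro T hT h
    by_cases hall : ∀ e ∈ T, Γ.comps (T.erase e) = Γ.comps T
    · exact ⟨T, Finset.Subset.refl _, Finset.card_pos.mp (by omega), hall⟩
    · push Not at hall
      obtain ⟨e, he, hne⟩ := hall
      have h1 := hce T e he
      have h2 : (T.erase e).card = m := by rw [Finset.card_erase_of_mem he, hT]; omega
      obtain ⟨S, hS, hS', hS''⟩ := ih (T.erase e) h2 (by omega)
      exact ⟨S, hS.trans (Finset.erase_subset _ _), hS', hS''⟩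

/-- three subgraphs without bridges -/
theorem cpoly_three (Γ : Ribbon k)
    (hce : ∀ (S : Finset (Fin k)) (e : Fin k), e ∈ S →
      Γ.comps S ≤ Γ.comps (S.erase e) ∧ Γ.comps (S.erase e) ≤ Γ.comps S + 1)
    (hcm : ∀ S : Finset (Fin k), (∀ e ∈ S, Γ.comps (S.erase e) = Γ.comps S) →
      (Γ.cpoly S).Monic ∧ (Γ.cpoly S).natDegree = S.card + Γ.comps S)
    (hk : Γ.verts + 1 ≤ k) (hΓ : Γ.comps Finset.univ = 1) :
    ∃ S1 S2 S3 : Finset (Fin k), S1 ≠ S2 ∧ S1 ≠ S3 ∧ S2 ≠ S3 ∧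
      Γ.cpoly S1 ≠ 0 ∧ Γ.cpoly S2 ≠ 0 ∧ Γ.cpoly S3 ≠ 0 := by
  have hcard : (Finset.univ : Finset (Fin k)).card = k := by simp
  obtain ⟨S2, -, hne2, hb2⟩ := exists_bridgeless Γ hce _ Finset.univ rfl (by omega)
  obtain ⟨e, he⟩ := hne2
  have h1 := hce Finset.univ e (Finset.mem_univ e)
  have h2 : (Finset.univ.erase e : Finset (Fin k)).card = k - 1 := by
    rw [Finset.card_erase_of_mem (Finset.mem_univ e), hcard]
  obtain ⟨S3, hS3, hne3, hb3⟩ := exists_bridgeless Γ hce _ (Finset.univ.erase e) rfl (by omega)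
  refine ⟨∅, S2, S3, ?_, ?_, ?_, ?_, (hcm S2 hb2).1.ne_zero, (hcm S3 hb3).1.ne_zero⟩
  · intro h; rw [← h] at he; exact absurd he (Finset.notMem_empty _)
  · intro h; exact hne3.ne_empty h.symm
  · intro h
    rw [h] at he
    exact absurd (hS3 he) (Finset.notMem_erase _ _)
  · exact (hcm ∅ (fun e he => absurd he (Finset.notMem_empty _))).1.ne_zero

end Pool.Agent.H891R2.MT.T3c
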