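import Pool.Agent.H891R2.MT.Defs

set_option autoImplicit false

/-! Task T3e (helper834): algebraic expansion of the state sum. -/

namespace Pool.Agent.H891R2.MT.T3e

open Finset LaurentPolynomial Pool.Agent.H891R2.Jones Pool.Agent.H891R2.MT

variable {k : ℕ}

theorem expand_aux (f : Finset (Fin k) → ℂ) (x y : Fin k → ℂ) :
    ∑ S : Finset (Fin k), f S * ((∏ e ∈ S, x e) * ∏ e ∈ Sᶜ, (y e - x e)) =
      ∑ R : Finset (Fin k), (∏ e ∈ R, x e) * (∏ e ∈ Rᶜ, y e) *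
        ∑ S ∈ R.powerset, (-1) ^ (R.card - S.card) * f S := by
  have h1 : ∀ S : Finset (Fin k), f S * ((∏ e ∈ S, x e) * ∏ e ∈ Sᶜ, (y e - x e)) =
      ∑ U ∈ (Sᶜ).powerset, f S * ((∏ e ∈ S, x e) * ((∏ e ∈ U, (-x e)) * ∏ e ∈ Sᶜ \ U, y e)) := by
    intro S
    have h2 : ∏ e ∈ Sᶜ, (y e - x e) = ∏ e ∈ Sᶜ, ((-x e) + y e) :=
      Finset.prod_congr rfl fun e _ => by ring
    rw [h2, Finset.prod_add, Finset.mul_sum, Finset.mul_sum]
  have h3 : ∀ R : Finset (Fin k), (∏ e ∈ R, x e) * (∏ e ∈ Rᶜ, y e) *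
        ∑ S ∈ R.powerset, (-1) ^ (R.card - S.card) * f S =
      ∑ S ∈ R.powerset, (∏ e ∈ R, x e) * (∏ e ∈ Rᶜ, y e) * ((-1) ^ (R.card - S.card) * f S) :=
    fun R => by rw [Finset.mul_sum]
  rw [Finset.sum_congr rfl (fun S _ => h1 S), Finset.sum_congr rfl (fun R _ => h3 R),
    Finset.sum_sigma', Finset.sum_sigma']
  refine Finset.sum_bij' (fun p _ => ⟨p.1 ∪ p.2, p.1⟩) (fun q _ => ⟨q.2, q.1 \ q.2⟩) ?_ ?_ ?_ ?_ ?_
  · rintro ⟨S, U⟩ _
    rw [Finset.mem_sigma]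
    exact ⟨Finset.mem_univ _, Finset.mem_powerset.mpr Finset.subset_union_left⟩
  · rintro ⟨R, S⟩ h
    simp only [Finset.mem_sigma, Finset.mem_univ, true_and, Finset.mem_powerset] at h ⊢
    intro e he
    simp only [Finset.mem_sdiff, Finset.mem_compl] at he ⊢
    exact he.2
  · rintro ⟨S, U⟩ h
    simp only [Finset.mem_sigma, Finset.mem_univ, true_and, Finset.mem_powerset] at h
    have : (S ∪ U) \ S = U := by
      ext e
      simp only [Finset.mem_sdiff, Finset.mem_union]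
      constructor
      · rintro ⟨h1 | h1, h2⟩
        · exact absurd h1 h2
        · exact h1
      · intro h1
        exact ⟨Or.inr h1, Finset.mem_compl.mp (h h1)⟩
    simp [this]
  · rintro ⟨R, S⟩ h
    simp only [Finset.mem_sigma, Finset.mem_univ, true_and, Finset.mem_powerset] at h
    have : S ∪ R \ S = R := Finset.union_sdiff_of_subset h
    simp [this]
  · rintro ⟨S, U⟩ h
    simp only [Finset.mem_sigma, Finset.mem_univ, true_and, Finset.mem_powerset] at h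
    have hdis : Disjoint S U := by
      rw [Finset.disjoint_left]
      intro e he heU
      exact Finset.mem_compl.mp (h heU) he
    have e1 : ∏ e ∈ S ∪ U, x e = (∏ e ∈ S, x e) * ∏ e ∈ U, x e := Finset.prod_union hdis
    have e2 : (S ∪ U)ᶜ = Sᶜ \ U := by
      ext e
      simp
    have e3 : (S ∪ U).card - S.card = U.card := by
      rw [Finset.card_union_of_disjoint hdis]
      omega
    have e4 : ∏ e ∈ U, (-x e) = (-1) ^ U.card * ∏ e ∈ U, x e := by
      rw [Finset.prod_neg]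
    simp only
    rw [e1, e2, e3, e4]
    ring

/-- expansion of the state sum -/
theorem expand (Γ : Ribbon k)
    (h2 : ∀ S : Finset (Fin k), (Γ.curves S : ℤ) = S.card - Γ.verts + 2 * Γ.comps S)
    {N : ℕ} (hN : N ≠ 0) (x y : Fin k → ℂ) :
    (N : ℂ) ^ (Γ.verts + k) * ∑ S : Finset (Fin k), (∏ e ∈ S, x e) * (∏ e ∈ Sᶜ, (y e - x e) / N) *
      (N : ℂ) ^ Γ.curves S =
    ∑ S : Finset (Fin k), (∏ e ∈ S, x e) * (∏ e ∈ Sᶜ, y e) *
      Polynomial.aeval ((N : ℂ) ^ 2) (Γ.cpoly S) := by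
  have hN' : (N : ℂ) ≠ 0 := by exact_mod_cast hN
  have h3 : ∀ S : Finset (Fin k), (N : ℂ) ^ (Γ.verts + k) * ((∏ e ∈ S, x e) *
      (∏ e ∈ Sᶜ, (y e - x e) / N) * (N : ℂ) ^ Γ.curves S) =
      ((N : ℂ) ^ 2) ^ (S.card + Γ.comps S) * ((∏ e ∈ S, x e) * ∏ e ∈ Sᶜ, (y e - x e)) := by
    intro S
    have e1 : ∏ e ∈ Sᶜ, (y e - x e) / (N : ℂ) = (∏ e ∈ Sᶜ, (y e - x e)) / (N : ℂ) ^ (Sᶜ).card := by
      rw [Finset.prod_div_distrib, Finset.prod_const]
    have e2 : S.card + (Sᶜ).card = k := by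
      rw [Finset.card_add_card_compl, Fintype.card_fin]
    have e3 : Γ.verts + S.card + Γ.curves S = 2 * (S.card + Γ.comps S) := by
      have := h2 S
      zify
      linarith
    have e4 : (N : ℂ) ^ (Γ.verts + k) = (N : ℂ) ^ (Γ.verts + S.card) * (N : ℂ) ^ (Sᶜ).card := by
      rw [← pow_add]
      congr 1
      omega
    have e5 : ((N : ℂ) ^ 2) ^ (S.card + Γ.comps S) =
        (N : ℂ) ^ (Γ.verts + S.card) * (N : ℂ) ^ Γ.curves S := by
      rw [← pow_mul, ← pow_add]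
      congr 1
      exact e3.symm
    rw [e1, e4, e5]
    field_simp
  rw [Finset.mul_sum, Finset.sum_congr rfl (fun S _ => h3 S),
    expand_aux (fun S => ((N : ℂ) ^ 2) ^ (S.card + Γ.comps S)) x y]
  refine Finset.sum_congr rfl fun R _ => ?_
  congr 1
  unfold Ribbon.cpoly
  rw [map_sum]
  refine Finset.sum_congr rfl fun S _ => ?_
  rw [map_mul, map_pow, map_pow, map_neg, map_one, Polynomial.aeval_X]

end Pool.Agent.H891R2.MT.T3e
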