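import Pool.Agent.H891R2.MT.Defs
import Pool.Agent.H891R2.Jones.Final

set_option autoImplicit false

/-! Task T4a (helper332): two terms do not cancel. -/

namespace Pool.Agent.H891R2.MT.T4a

open Finset LaurentPolynomial Pool.Agent.H891R2.Jones

/-- the unit `W ^ a` -/
noncomputable def W (a : ℤ) : ℤ[T;T⁻¹] := (-1) ^ a.natAbs * T (4 * a)

theorem neg_one_pow_natAbs_add (a b : ℤ) :
    (-1 : ℤ[T;T⁻¹]) ^ (a + b).natAbs = (-1) ^ a.natAbs * (-1) ^ b.natAbs := by
  rw [← pow_add]
  rcases Nat.even_or_odd (a + b).natAbs with h | h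
  · rw [h.neg_one_pow]
    have : Even (a.natAbs + b.natAbs) := by
      rw [Nat.even_iff] at h ⊢
      omega
    rw [this.neg_one_pow]
  · rw [h.neg_one_pow]
    have : Odd (a.natAbs + b.natAbs) := by
      rw [Nat.odd_iff] at h ⊢
      omega
    rw [this.neg_one_pow]

theorem W_add (a b : ℤ) : W (a + b) = W a * W b := by
  unfold W
  rw [neg_one_pow_natAbs_add, mul_add, T_add]
  ring

theorem W_zero : W 0 = 1 := by
  unfold W
  simp

theorem invert_W (a : ℤ) : LaurentPolynomial.invert (W a) = W (-a) := by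
  unfold W
  simp

/-- the value at the point number `N` -/
theorem ev_Q (N : ℕ) (hN : 3 ≤ N) : ev N hN ((-T 2 - T (-2)) ^ 2) = (N : ℂ) ^ 2 := by
  rw [map_pow, map_sub, map_neg, ev_T, ev_T]
  have h1 : -(Ar N)^(2:ℤ) - (Ar N)^(-2:ℤ) = (N : ℂ) := by
    rw [Ar_d N hN, inv_pow]
    rfl
  rw [h1]

theorem ev_aeval (N : ℕ) (hN : 3 ≤ N) (p : Polynomial ℤ) :
    ev N hN (Polynomial.aeval ((-T 2 - T (-2)) ^ 2 : ℤ[T;T⁻¹]) p) =
      ((p.eval ((N : ℤ) ^ 2) : ℤ) : ℂ) := by
  rw [Polynomial.aeval_def, Polynomial.hom_eval₂, ev_Q]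
  have h1 : ((ev N hN).comp (algebraMap ℤ ℤ[T;T⁻¹])) = Int.castRingHom ℂ := RingHom.ext_int _ _
  rw [h1]
  have h2 : ((N : ℂ) ^ 2) = Int.castRingHom ℂ ((N : ℤ) ^ 2) := by simp
  rw [h2, Polynomial.eval₂_at_apply]
  simp

theorem eq_zero_of_aeval (p : Polynomial ℤ)
    (h : Polynomial.aeval ((-T 2 - T (-2)) ^ 2 : ℤ[T;T⁻¹]) p = 0) : p = 0 := by
  apply Polynomial.eq_zero_of_infinite_isRoot
  have hinf : Set.Infinite ((fun N : ℕ => (N : ℤ) ^ 2) '' {N | 3 ≤ N}) := by
    apply Set.Infinite.image _ (Set.Ici_infinite 3)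
    intro a _ b _ hab
    have h1 : (a : ℤ) ^ 2 = (b : ℤ) ^ 2 := hab
    have h2 : (a : ℤ) = b := (sq_eq_sq₀ (by positivity) (by positivity)).1 h1
    exact_mod_cast h2
  refine hinf.mono ?_
  rintro _ ⟨N, hN, rfl⟩
  have h1 := ev_aeval N hN p
  rw [h, map_zero] at h1
  show p.eval ((N : ℤ) ^ 2) = 0
  exact_mod_cast h1.symm

theorem W_inj {c : ℤ} (h : W c = W (-c)) : c = 0 := by
  have h1 := congrArg (ev 3 le_rfl) h
  unfold W at h1
  rw [map_mul, map_mul, map_pow, map_pow, ev_T, ev_T, Int.natAbs_neg] at h1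
  have h2 := mul_left_cancel₀ (by
    apply pow_ne_zero
    rw [map_neg, map_one]
    norm_num) h1
  have h3 := Ar_zpow_inj 3 le_rfl h2
  omega

theorem pair_ne_zero (p q : Polynomial ℤ) (hp : p.Monic) (hq : q.Monic) (a b : ℤ) :
    ((-1 : ℤ[T;T⁻¹]) ^ a.natAbs * T (4 * a)) * Polynomial.aeval ((-T 2 - T (-2)) ^ 2 : ℤ[T;T⁻¹]) p + 
    ((-1 : ℤ[T;T⁻¹]) ^ b.natAbs * T (4 * b)) * Polynomial.aeval ((-T 2 - T (-2)) ^ 2 : ℤ[T;T⁻¹]) q ≠ 0 := by
  intro h
  set Q : ℤ[T;T⁻¹] := (-T 2 - T (-2)) ^ 2 with hQ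
  have hQi : LaurentPolynomial.invert Q = Q := by
    rw [hQ]
    simp only [map_pow, map_sub, map_neg, LaurentPolynomial.invert_T, neg_neg]
    ring
  have hG : ∀ r : Polynomial ℤ, LaurentPolynomial.invert (Polynomial.aeval Q r) =
      Polynomial.aeval Q r := by
    intro r
    have : LaurentPolynomial.invert (Polynomial.aeval Q r) =
      Polynomial.aeval (LaurentPolynomial.invert Q) r := by
      rw [← AlgEquiv.coe_toAlgHom, ← Polynomial.aeval_algHom_apply]
    rw [this, hQi]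
  have h1 : W a * Polynomial.aeval Q p + W b * Polynomial.aeval Q q = 0 := h
  have h2 : W (-a) * Polynomial.aeval Q p + W (-b) * Polynomial.aeval Q q = 0 := by
    have := congrArg LaurentPolynomial.invert h1
    rw [map_add, map_mul, map_mul, invert_W, invert_W, hG, hG, map_zero] at this
    exact this
  have hq0 : Polynomial.aeval Q q ≠ 0 := fun h0 => hq.ne_zero (eq_zero_of_aeval q h0)
  have h3 : (W (b - a) - W (-(b - a))) * Polynomial.aeval Q q = 0 := by
    have e1 : W (-a) * (W a * Polynomial.aeval Q p + W b * Polynomial.aeval Q q) -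
        W a * (W (-a) * Polynomial.aeval Q p + W (-b) * Polynomial.aeval Q q) = 0 := by
      rw [h1, h2]; ring
    have e2 : W (b - a) = W (-a) * W b := by rw [← W_add]; congr 1; ring
    have e3 : W (-(b - a)) = W a * W (-b) := by rw [← W_add]; congr 1; ring
    rw [e2, e3, ← e1]
    ring
  have h4 : W (b - a) - W (-(b - a)) = 0 := (mul_eq_zero.1 h3).resolve_right hq0
  have h5 := W_inj (sub_eq_zero.1 h4)
  have h6 : b = a := by omega
  subst h6
  have h7 : Polynomial.aeval Q (p + q) = 0 := by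
    have e1 : W (-b) * (W b * Polynomial.aeval Q p + W b * Polynomial.aeval Q q) = 0 := by
      rw [h1, mul_zero]
    have e2 : W (-b) * W b = 1 := by rw [← W_add, neg_add_cancel, W_zero]
    rw [← mul_add, ← mul_assoc, e2, one_mul, ← map_add] at e1
    exact e1
  have h8 := eq_zero_of_aeval _ h7
  rcases lt_trichotomy p.natDegree q.natDegree with hd | hd | hd
  · have := congrArg (fun r => r.coeff q.natDegree) h8
    simp only [Polynomial.coeff_add, Polynomial.coeff_zero] at this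
    rw [Polynomial.coeff_eq_zero_of_natDegree_lt hd, hq.coeff_natDegree] at this
    omega
  · have := congrArg (fun r => r.coeff q.natDegree) h8
    simp only [Polynomial.coeff_add, Polynomial.coeff_zero] at this
    rw [← hd, hp.coeff_natDegree, hd, hq.coeff_natDegree] at this
    omega
  · have := congrArg (fun r => r.coeff p.natDegree) h8
    simp only [Polynomial.coeff_add, Polynomial.coeff_zero] at this
    rw [Polynomial.coeff_eq_zero_of_natDegree_lt hd, hp.coeff_natDegree] at this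
    omega

end Pool.Agent.H891R2.MT.T4a
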