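import Pool.Agent.H891R2.MT.Defs

set_option autoImplicit false

/-! # T4b: the cluster argument -/

namespace Pool.Agent.H891R2.MT.T4b

open Finset LaurentPolynomial Pool.Agent.H891R2.Jones

variable {k : ℕ}

/-- the indicator vector -/
def chi (S : Finset (Fin k)) : Fin k → ℤ := fun e => if e ∈ S then 1 else 0

/-- the support is contained in `[lo, hi]` -/
def SIn (f : ℤ[T;T⁻¹]) (lo hi : ℤ) : Prop := ∀ j, f.coeff j ≠ 0 → lo ≤ j ∧ j ≤ hi

theorem SIn.mono {f : ℤ[T;T⁻¹]} {lo hi lo' hi' : ℤ} (h : SIn f lo hi) (h1 : lo' ≤ lo)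
    (h2 : hi ≤ hi') : SIn f lo' hi' := fun j hj => ⟨h1.trans (h j hj).1, (h j hj).2.trans h2⟩

theorem SIn.zero {lo hi : ℤ} : SIn 0 lo hi := fun j hj => absurd rfl hj

theorem SIn.add {f g : ℤ[T;T⁻¹]} {lo hi : ℤ} (hf : SIn f lo hi) (hg : SIn g lo hi) :
    SIn (f + g) lo hi := by
  intro j hj
  by_cases h : f.coeff j = 0
  · apply hg j
    intro h'
    apply hj
    rw [AddMonoidAlgebra.coeff_add, Finsupp.add_apply, h, h', add_zero]
  · exact hf j h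

theorem SIn.sum {ι : Type} (s : Finset ι) (f : ι → ℤ[T;T⁻¹]) {lo hi : ℤ}
    (h : ∀ i ∈ s, SIn (f i) lo hi) : SIn (∑ i ∈ s, f i) lo hi := by
  classical
  induction s using Finset.induction_on with
  | empty => simpa using SIn.zero
  | insert a s ha ih =>
    rw [Finset.sum_insert ha]
    exact (h a (Finset.mem_insert_self _ _)).add
      (ih (fun i hi => h i (Finset.mem_insert_of_mem hi)))

theorem SIn.mul {f g : ℤ[T;T⁻¹]} {lo hi lo' hi' : ℤ} (hf : SIn f lo hi) (hg : SIn g lo' hi') :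
    SIn (f * g) (lo + lo') (hi + hi') := by
  classical
  intro j hj
  have h1 : j ∈ (f * g).coeff.support := Finsupp.mem_support_iff.mpr hj
  have h2 := AddMonoidAlgebra.support_coeff_mul_subset f g h1
  rw [Finset.mem_add] at h2
  obtain ⟨a, ha, b, hb, rfl⟩ := h2
  have k1 := hf a (Finsupp.mem_support_iff.mp ha)
  have k2 := hg b (Finsupp.mem_support_iff.mp hb)
  exact ⟨by omega, by omega⟩

theorem SIn.C (c : ℤ) : SIn (C c) 0 0 := by
  intro j hj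
  rw [C_apply] at hj
  by_cases h : j = 0
  · subst h; exact ⟨le_rfl, le_rfl⟩
  · rw [if_neg h] at hj; exact absurd rfl hj

theorem SIn.one : SIn 1 0 0 := by
  have := SIn.C 1
  rwa [map_one] at this

theorem SIn.T (n : ℤ) : SIn (T n) n n := by
  intro j hj
  rw [T_apply] at hj
  by_cases h : n = j
  · subst h; exact ⟨le_rfl, le_rfl⟩
  · rw [if_neg h] at hj; exact absurd rfl hj

theorem SIn.pow {f : ℤ[T;T⁻¹]} {d : ℤ} (hf : SIn f (-d) d) (n : ℕ) :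
    SIn (f ^ n) (-(n * d)) (n * d) := by
  induction n with
  | zero => simpa using SIn.one
  | succ n ih =>
    rw [pow_succ]
    refine (ih.mul hf).mono ?_ ?_ <;> push_cast <;> linarith

theorem SIn.neg {f : ℤ[T;T⁻¹]} {lo hi : ℤ} (hf : SIn f lo hi) : SIn (-f) lo hi := by
  intro j hj
  apply hf j
  intro h
  apply hj
  rw [AddMonoidAlgebra.coeff_neg, Finsupp.neg_apply, h, neg_zero]

theorem SIn.smul {f : ℤ[T;T⁻¹]} {lo hi : ℤ} (c : ℤ) (hf : SIn f lo hi) : SIn (c • f) lo hi := by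
  intro j hj
  apply hf j
  intro h
  apply hj
  rw [AddMonoidAlgebra.coeff_smul, Finsupp.smul_apply, h, smul_zero]

theorem SIn_d : SIn (-T 2 - T (-2) : ℤ[T;T⁻¹]) (-2) 2 := by
  rw [sub_eq_add_neg]
  exact ((SIn.T 2).neg.mono (by norm_num) (by norm_num)).add
    ((SIn.T (-2)).neg.mono (by norm_num) (by norm_num))

theorem SIn_Q : SIn ((-T 2 - T (-2)) ^ 2 : ℤ[T;T⁻¹]) (-4) 4 := by
  have := SIn_d.pow 2
  exact this.mono (by norm_num) (by norm_num)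

theorem SIn_sgn (a : ℕ) : SIn ((-1 : ℤ[T;T⁻¹]) ^ a) 0 0 := by
  have h : SIn (-1 : ℤ[T;T⁻¹]) (-0) 0 := by simpa using SIn.one.neg
  have := h.pow a
  simpa using this

theorem SIn_aeval {D : ℕ} (c : Polynomial ℤ) (hD : c.natDegree ≤ D) :
    SIn (Polynomial.aeval ((-T 2 - T (-2)) ^ 2 : ℤ[T;T⁻¹]) c) (-(4 * D)) (4 * D) := by
  rw [Polynomial.aeval_eq_sum_range]
  apply SIn.sum
  intro i hi
  rw [Finset.mem_range] at hi
  apply SIn.smul
  have := SIn_Q.pow i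
  refine this.mono ?_ ?_ <;> nlinarith

/-- The term of the subgraph `S`. -/
noncomputable def term (c : Finset (Fin k) → Polynomial ℤ) (n : Fin k → ℤ) (S : Finset (Fin k)) :
    ℤ[T;T⁻¹] := ((-1 : ℤ[T;T⁻¹]) ^ (nS n S).natAbs * T (4 * nS n S)) *
        Polynomial.aeval ((-T 2 - T (-2)) ^ 2 : ℤ[T;T⁻¹]) (c S)

theorem SIn_term {c : Finset (Fin k) → Polynomial ℤ} {D : ℕ} (hD : ∀ S, (c S).natDegree ≤ D)
    (n : Fin k → ℤ) (S : Finset (Fin k)) :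
    SIn (term c n S) (4 * nS n S - 4 * D) (4 * nS n S + 4 * D) := by
  unfold term
  refine (((SIn_sgn _).mul (SIn.T _)).mul (SIn_aeval (c S) (hD S))).mono ?_ ?_ <;> linarith

theorem SIn_rhs (ε m : ℤ) (M : ℕ) :
    SIn (C ε * T m * (-T 2 - T (-2)) ^ M : ℤ[T;T⁻¹]) (m - 2 * M) (m + 2 * M) := by
  refine (((SIn.C ε).mul (SIn.T m)).mul (SIn_d.pow M)).mono ?_ ?_ <;> linarith

/-- Three distinct `0/1` vectors are never collinear. -/
theorem not_collinear {S1 S2 S3 : Finset (Fin k)} (h12 : S1 ≠ S2) (h13 : S1 ≠ S3) (h23 : S2 ≠ S3)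
    (a b : ℤ) (h : ∀ e, a * (chi S1 e - chi S2 e) + b * (chi S1 e - chi S3 e) = 0) :
    a = 0 ∧ b = 0 := by
  have hchi : ∀ (S : Finset (Fin k)) (e : Fin k), (e ∈ S ∧ chi S e = 1) ∨ (e ∉ S ∧ chi S e = 0) := by
    intro S e
    unfold chi
    by_cases he : e ∈ S
    · left; simp [he]
    · right; simp [he]
  obtain ⟨e, he⟩ : ∃ e, ¬ (e ∈ S1 ↔ e ∈ S2) := by
    by_contra hcon
    push Not at hcon
    exact h12 (Finset.ext hcon)
  obtain ⟨f, hf⟩ : ∃ e, ¬ (e ∈ S1 ↔ e ∈ S3) := by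
    by_contra hcon
    push Not at hcon
    exact h13 (Finset.ext hcon)
  obtain ⟨g, hg⟩ : ∃ e, ¬ (e ∈ S2 ↔ e ∈ S3) := by
    by_contra hcon
    push Not at hcon
    exact h23 (Finset.ext hcon)
  have he' := h e
  have hf' := h f
  have hg' := h g
  rcases hchi S1 e with ⟨p1, q1⟩ | ⟨p1, q1⟩ <;> rcases hchi S2 e with ⟨p2, q2⟩ | ⟨p2, q2⟩ <;>
    rcases hchi S3 e with ⟨p3, q3⟩ | ⟨p3, q3⟩ <;> rw [q1, q2, q3] at he' <;>
    rcases hchi S1 f with ⟨p4, q4⟩ | ⟨p4, q4⟩ <;> rcases hchi S2 f with ⟨p5, q5⟩ | ⟨p5, q5⟩ <;>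
    rcases hchi S3 f with ⟨p6, q6⟩ | ⟨p6, q6⟩ <;> rw [q4, q5, q6] at hf' <;>
    rcases hchi S1 g with ⟨p7, q7⟩ | ⟨p7, q7⟩ <;> rcases hchi S2 g with ⟨p8, q8⟩ | ⟨p8, q8⟩ <;>
    rcases hchi S3 g with ⟨p9, q9⟩ | ⟨p9, q9⟩ <;> rw [q7, q8, q9] at hg' <;>
    first
      | exact absurd (iff_of_true p1 p2) he
      | exact absurd (iff_of_false p1 p2) he
      | exact absurd (iff_of_true p4 p6) hf
      | exact absurd (iff_of_false p4 p6) hf
      | exact absurd (iff_of_true p8 p9) hg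
      | exact absurd (iff_of_false p8 p9) hg
      | exact ⟨by omega, by omega⟩

/-- The top cluster survives. -/
theorem top_cluster (t : Finset (Fin k) → ℤ → ℤ) (a : Finset (Fin k) → ℤ)
    (SS : Finset (Fin k) → Prop) (D : ℕ) (h0 : ∀ S j, t S j ≠ 0 → SS S ∧
      4 * a S - 4 * D ≤ j ∧ j ≤ 4 * a S + 4 * D)
    (hone : ∀ S, SS S → ∃ j, t S j ≠ 0)
    (hpair : ∀ S S', SS S → SS S' → ∃ j, t S j + t S' j ≠ 0)
    (hno : ∀ S S' S'', SS S → SS S' → SS S'' → S ≠ S' → S ≠ S'' → S' ≠ S'' →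
      |a S - a S'| ≤ 4 * D + 4 → |a S - a S''| ≤ 4 * D + 4 → False)
    (S1 : Finset (Fin k)) (hS1 : SS S1) (hmax : ∀ S, SS S → a S ≤ a S1) :
    ∃ j, 4 * a S1 - 12 * D - 8 ≤ j ∧ ∑ S, t S j ≠ 0 := by
  by_cases hc : ∃ S2, SS S2 ∧ S2 ≠ S1 ∧ a S1 - (2 * D + 2) ≤ a S2
  · obtain ⟨S2, hS2, hne, ha⟩ := hc
    obtain ⟨j, hj⟩ := hpair S1 S2 hS1 hS2
    have hmax2 := hmax S2 hS2
    have hjlow : 4 * a S1 - 12 * D - 8 ≤ j := by
      by_cases h1 : t S1 j = 0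
      · by_cases h2 : t S2 j = 0
        · rw [h1, h2] at hj; exact absurd rfl hj
        · have := (h0 S2 j h2).2.1; omega
      · have := (h0 S1 j h1).2.1; omega
    refine ⟨j, hjlow, ?_⟩
    have hsum : ∑ S, t S j = t S1 j + t S2 j := by
      rw [← Finset.sum_pair (f := fun S => t S j) hne.symm]
      symm
      apply Finset.sum_subset (Finset.subset_univ _)
      intro S _ hS
      simp only [Finset.mem_insert, Finset.mem_singleton, not_or] at hS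
      by_contra hne0
      obtain ⟨k1, k2, k3⟩ := h0 S j hne0
      have k4 := hmax S k1
      apply hno S1 S2 S hS1 hS2 k1 hne.symm (Ne.symm hS.1) (Ne.symm hS.2)
      · rw [abs_le]; omega
      · rw [abs_le]; omega
    rw [hsum]
    exact hj
  · push Not at hc
    obtain ⟨j, hj⟩ := hone S1 hS1
    have hj2 := (h0 S1 j hj).2.1
    refine ⟨j, by omega, ?_⟩
    have hsum : ∑ S, t S j = t S1 j := by
      apply Finset.sum_eq_single S1
      · intro S _ hS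
        by_contra hne0
        obtain ⟨k1, k2, k3⟩ := h0 S j hne0
        have := hc S k1 hS
        omega
      · intro h; exact absurd (Finset.mem_univ _) h
    rw [hsum]
    exact hj

/-- T4b -/
theorem cluster
    (pair_ne_zero : ∀ (p q : Polynomial ℤ) (hp : p.Monic) (hq : q.Monic) (a b : ℤ),
      ((-1 : ℤ[T;T⁻¹]) ^ a.natAbs * T (4 * a)) *
        Polynomial.aeval ((-T 2 - T (-2)) ^ 2 : ℤ[T;T⁻¹]) p +
      ((-1 : ℤ[T;T⁻¹]) ^ b.natAbs * T (4 * b)) *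
        Polynomial.aeval ((-T 2 - T (-2)) ^ 2 : ℤ[T;T⁻¹]) q ≠ 0)
    (c : Finset (Fin k) → Polynomial ℤ) (D M : ℕ)
    (hc : ∀ S, c S = 0 ∨ (c S).Monic) (hD : ∀ S, (c S).natDegree ≤ D)
    (h3 : ∃ S1 S2 S3 : Finset (Fin k), S1 ≠ S2 ∧ S1 ≠ S3 ∧ S2 ≠ S3 ∧ c S1 ≠ 0 ∧ c S2 ≠ 0 ∧ c S3 ≠ 0)
    (n : Fin k → ℤ) (m : ℤ) (ε : ℤ)
    (h : ∑ S : Finset (Fin k), ((-1 : ℤ[T;T⁻¹]) ^ (nS n S).natAbs * T (4 * nS n S)) *
        Polynomial.aeval ((-T 2 - T (-2)) ^ 2 : ℤ[T;T⁻¹]) (c S) =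
      C ε * T m * (-T 2 - T (-2)) ^ M) :
    ∃ S1 S2 S3 S4 : Finset (Fin k), c S1 ≠ 0 ∧ c S2 ≠ 0 ∧ c S3 ≠ 0 ∧ c S4 ≠ 0 ∧
      (∀ a b : ℤ, (∀ e, a * (chi S1 e - chi S2 e) + b * (chi S3 e - chi S4 e) = 0) → a = 0 ∧ b = 0) ∧
      |nS n S1 - nS n S2| ≤ 6 * D + M + 4 ∧ |nS n S3 - nS n S4| ≤ 6 * D + M + 4 := by
  classical
  by_contra hcon
  have hno : ∀ S S' S'' : Finset (Fin k), c S ≠ 0 → c S' ≠ 0 → c S'' ≠ 0 → S ≠ S' → S ≠ S'' →
      S' ≠ S'' → |nS n S - nS n S'| ≤ 6 * D + M + 4 → |nS n S - nS n S''| ≤ 6 * D + M + 4 →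
      False := by
    intro S S' S'' h1 h2 h3 h4 h5 h6 h7 h8
    exact hcon ⟨S, S', S, S'', h1, h2, h1, h3, not_collinear h4 h5 h6, h7, h8⟩
  obtain ⟨A1, A2, A3, hA12, hA13, hA23, hA1, hA2, hA3⟩ := h3
  -- maximal and minimal elements
  set SS : Finset (Finset (Fin k)) := Finset.univ.filter (fun S => c S ≠ 0) with hSS
  have hSSne : SS.Nonempty := ⟨A1, by simp [hSS, hA1]⟩
  obtain ⟨S1, hS1, hmax⟩ := SS.exists_max_image (fun S => nS n S) hSSne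
  obtain ⟨S0, hS0, hmin⟩ := SS.exists_min_image (fun S => nS n S) hSSne
  have hS1' : c S1 ≠ 0 := (Finset.mem_filter.mp hS1).2
  have hS0' : c S0 ≠ 0 := (Finset.mem_filter.mp hS0).2
  have hmax' : ∀ S, c S ≠ 0 → nS n S ≤ nS n S1 := fun S hS =>
    hmax S (Finset.mem_filter.mpr ⟨Finset.mem_univ _, hS⟩)
  have hmin' : ∀ S, c S ≠ 0 → nS n S0 ≤ nS n S := fun S hS =>
    hmin S (Finset.mem_filter.mpr ⟨Finset.mem_univ _, hS⟩)
  have hbig : (6 * D + M + 4 : ℤ) < nS n S1 - nS n S0 := by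
    by_contra hle
    push Not at hle
    have b1 := hmax' A1 hA1
    have b2 := hmax' A2 hA2
    have b3 := hmax' A3 hA3
    have b4 := hmin' A1 hA1
    have b5 := hmin' A2 hA2
    have b6 := hmin' A3 hA3
    apply hno A1 A2 A3 hA1 hA2 hA3 hA12 hA13 hA23
    · rw [abs_le]; omega
    · rw [abs_le]; omega
  -- coefficients
  set t : Finset (Fin k) → ℤ → ℤ := fun S j => (term c n S).coeff j with ht
  have hz : ∀ S, c S = 0 → term c n S = 0 := by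
    intro S hS
    unfold term
    rw [hS, map_zero, mul_zero]
  have hm : ∀ S, c S ≠ 0 → (c S).Monic := fun S hS => (hc S).resolve_left hS
  have h0 : ∀ S j, t S j ≠ 0 → c S ≠ 0 ∧ 4 * nS n S - 4 * D ≤ j ∧ j ≤ 4 * nS n S + 4 * D := by
    intro S j hj
    refine ⟨fun hS => hj ?_, SIn_term hD n S j hj⟩
    simp only [ht]
    rw [hz S hS]
    rfl
  have hpair : ∀ S S', c S ≠ 0 → c S' ≠ 0 → ∃ j, t S j + t S' j ≠ 0 := by
    intro S S' hS hS'
    by_contra hcc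
    push Not at hcc
    apply pair_ne_zero (c S) (c S') (hm S hS) (hm S' hS') (nS n S) (nS n S')
    change term c n S + term c n S' = 0
    apply LaurentPolynomial.ext
    intro j
    rw [AddMonoidAlgebra.coeff_add, Finsupp.add_apply]
    exact hcc j
  have hone : ∀ S, c S ≠ 0 → ∃ j, t S j ≠ 0 := by
    intro S hS
    obtain ⟨j, hj⟩ := hpair S S hS hS
    refine ⟨j, fun h0 => hj ?_⟩
    rw [h0, add_zero]
  have hsum : ∀ j, ∑ S, t S j = (C ε * T m * (-T 2 - T (-2)) ^ M : ℤ[T;T⁻¹]).coeff j := by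
    intro j
    rw [← h, AddMonoidAlgebra.coeff_sum, Finsupp.finsetSum_apply]
    rfl
  have hno2 : ∀ S S' S'' : Finset (Fin k), c S ≠ 0 → c S' ≠ 0 → c S'' ≠ 0 → S ≠ S' → S ≠ S'' →
      S' ≠ S'' → |nS n S - nS n S'| ≤ 4 * D + 4 → |nS n S - nS n S''| ≤ 4 * D + 4 → False := by
    intro S S' S'' g1 g2 g3 g4 g5 g6 g7 g8
    exact hno S S' S'' g1 g2 g3 g4 g5 g6 (g7.trans (by omega)) (g8.trans (by omega))
  obtain ⟨j1, hj1, hj1'⟩ := top_cluster t (fun S => nS n S) (fun S => c S ≠ 0) D h0 hone hpair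
    hno2 S1 hS1' hmax'
  obtain ⟨j2, hj2, hj2'⟩ := top_cluster (fun S j => t S (-j)) (fun S => -nS n S)
    (fun S => c S ≠ 0) D
    (by
      intro S j hj
      obtain ⟨g1, g2, g3⟩ := h0 S (-j) hj
      exact ⟨g1, by omega, by omega⟩)
    (by
      intro S hS
      obtain ⟨j, hj⟩ := hone S hS
      exact ⟨-j, by simpa using hj⟩)
    (by
      intro S S' hS hS'
      obtain ⟨j, hj⟩ := hpair S S' hS hS'
      exact ⟨-j, by simpa using hj⟩)
    (by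
      intro S S' S'' g1 g2 g3 g4 g5 g6 g7 g8
      apply hno2 S S' S'' g1 g2 g3 g4 g5 g6
      · rw [abs_le] at g7 ⊢; omega
      · rw [abs_le] at g8 ⊢; omega)
    S0 hS0' (by
      intro S hS
      have := hmin' S hS
      omega)
  rw [hsum] at hj1'
  rw [hsum] at hj2'
  have r1 := SIn_rhs ε m M j1 hj1'
  have r2 := SIn_rhs ε m M (-j2) hj2'
  omega

end Pool.Agent.H891R2.MT.T4b
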