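import Pool.Agent.H891R2.MT.Defs

set_option autoImplicit false

/-! Task T5 (helper332): counting integer points in a box between two pairs of hyperplanes. -/

namespace Pool.Agent.H891R2.MT.T5

open Finset LaurentPolynomial Pool.Agent.H891R2.Jones

variable {k : ℕ}

theorem exists_minor (h1 h2 : Fin k → ℤ)
    (hh : ∀ a b : ℤ, (∀ e, a * h1 e + b * h2 e = 0) → a = 0 ∧ b = 0) :
    ∃ i j : Fin k, h1 i * h2 j - h1 j * h2 i ≠ 0 := by
  by_contra hcon
  push Not at hcon
  by_cases h0 : ∀ e, h1 e = 0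
  · have := (hh 1 0 (fun e => by rw [h0 e]; ring)).1
    exact one_ne_zero this
  · push Not at h0
    obtain ⟨i, hi⟩ := h0
    have := (hh (h2 i) (-h1 i) (fun e => by linear_combination (-1) * hcon i e)).2
    exact hi (neg_eq_zero.1 this)

theorem count_box (h1 h2 : Fin k → ℤ) 
    (hh : ∀ a b : ℤ, (∀ e, a * h1 e + b * h2 e = 0) → a = 0 ∧ b = 0) (L N : ℕ) :
    {n : Fin k → ℤ | (∀ e, |n e| ≤ N) ∧ |∑ e, h1 e * n e| ≤ L ∧ |∑ e, h2 e * n e| ≤ L}.ncard ≤ 
      (2 * L + 1) ^ 2 * (2 * N + 1) ^ (k - 2) := by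
  classical
  obtain ⟨i, j, hij⟩ := exists_minor h1 h2 hh
  have hne : i ≠ j := by
    rintro rfl
    apply hij
    ring
  let t : Finset (ℤ × ℤ × ({e : Fin k // e ≠ i ∧ e ≠ j} → ℤ)) :=
    (Finset.Icc (-(L : ℤ)) L) ×ˢ ((Finset.Icc (-(L : ℤ)) L) ×ˢ
      Fintype.piFinset (fun _ : {e : Fin k // e ≠ i ∧ e ≠ j} => Finset.Icc (-(N : ℤ)) N))
  let F : (Fin k → ℤ) → ℤ × ℤ × ({e : Fin k // e ≠ i ∧ e ≠ j} → ℤ) :=
    fun n => (∑ e, h1 e * n e, ∑ e, h2 e * n e, fun e => n e.1)
  have hc : Fintype.card {e : Fin k // e ≠ i ∧ e ≠ j} = k - 2 := by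
    rw [Fintype.card_subtype]
    have : (univ.filter (fun e : Fin k => e ≠ i ∧ e ≠ j)) = (univ.erase i).erase j := by
      ext e
      simp only [Finset.mem_filter, Finset.mem_univ, true_and, Finset.mem_erase, and_true]
      tauto
    rw [this, Finset.card_erase_of_mem (by simp [hne.symm]), Finset.card_erase_of_mem (by simp)]
    simp
    omega
  have hIcc : ∀ M : ℕ, (Finset.Icc (-(M : ℤ)) M).card = 2 * M + 1 := by
    intro M
    rw [Int.card_Icc]
    omega
  have ht : (t : Finset _).card = (2 * L + 1) ^ 2 * (2 * N + 1) ^ (k - 2) := by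
    rw [Finset.card_product, Finset.card_product, Fintype.card_piFinset, Finset.prod_const,
      Finset.card_univ, hc, hIcc, hIcc]
    ring
  rw [← ht, ← Set.ncard_coe_finset t]
  refine Set.ncard_le_ncard_of_injOn F ?_ ?_ t.finite_toSet
  · rintro n ⟨hn, hn1, hn2⟩
    rw [Finset.mem_coe]
    simp only [t, F, Finset.mem_product, Finset.mem_Icc, Fintype.mem_piFinset]
    exact ⟨abs_le.1 hn1, abs_le.1 hn2, fun e => abs_le.1 (hn e.1)⟩
  · intro n _ n' _ h
    simp only [F, Prod.mk.injEq] at h
    obtain ⟨ha, hb, hc'⟩ := h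
    have hd : ∀ e, e ≠ i → e ≠ j → n e - n' e = 0 := by
      intro e he he'
      have := congrFun hc' ⟨e, he, he'⟩
      simp only at this
      omega
    have hsum : ∀ h : Fin k → ℤ, ∑ e, h e * n e = ∑ e, h e * n' e →
        h i * (n i - n' i) + h j * (n j - n' j) = 0 := by
      intro h hs
      have h3 : ∑ e, h e * (n e - n' e) = 0 := by
        rw [← sub_eq_zero.2 hs, ← Finset.sum_sub_distrib]
        exact Finset.sum_congr rfl fun e _ => by ring
      rw [← Finset.add_sum_erase _ _ (Finset.mem_univ i),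
        ← Finset.add_sum_erase _ _ (Finset.mem_erase.2 ⟨hne.symm, Finset.mem_univ j⟩),
        Finset.sum_eq_zero (by
          intro e he
          rw [Finset.mem_erase, Finset.mem_erase] at he
          rw [hd e he.2.1 he.1, mul_zero])] at h3
      linarith
    have e1 := hsum h1 ha
    have e2 := hsum h2 hb
    have hi : n i - n' i = 0 := by
      have : (h1 i * h2 j - h1 j * h2 i) * (n i - n' i) = 0 := by
        linear_combination h2 j * e1 - h1 j * e2
      exact (mul_eq_zero.1 this).resolve_left hij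
    have hj : n j - n' j = 0 := by
      have : (h1 i * h2 j - h1 j * h2 i) * (n j - n' j) = 0 := by
        linear_combination h1 i * e2 - h2 i * e1
      exact (mul_eq_zero.1 this).resolve_left hij
    funext e
    by_cases he : e = i
    · subst he; linarith
    · by_cases he' : e = j
      · subst he'; linarith
      · linarith [hd e he he']

end Pool.Agent.H891R2.MT.T5
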