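import Pool.Agent.H891R2.MT.Defs
import Pool.Agent.H891R2.Jones.Final

set_option autoImplicit false

namespace Pool.Agent.H891R2.MT.T6

open Finset LaurentPolynomial Pool.Agent.H891R2.Jones Pool.Agent.H891R2.MT

/-- Laurent polynomials are determined by the evaluations -/
theorem eq_of_ev (f g : ℤ[T;T⁻¹]) (h : ∀ N (hN : 3 ≤ N), ev N hN f = ev N hN g) : f = g := by
  have h1 : f - g + 1 = 1 := eq_one_of_ev _ (fun N hN => by rw [map_add, map_sub, h N hN, sub_self, map_one, zero_add])
  have h2 : f - g = 0 := by simpa using h1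
  exact sub_eq_zero.1 h2

theorem arcs_orients {P : Type} (N : ℕ) (col : P → Fin N) {l l' : List (P × P)}
    (h : List.Forall₂ (fun x y : P × P => x = y ∨ x = y.swap) l l') : 
    (l.map (arcW col)).prod = (l'.map (arcW col)).prod := by
  induction h with
  | nil => rfl
  | cons hab _ ih =>
    rw [List.map_cons, List.map_cons, List.prod_cons, List.prod_cons, ih]
    congr 1
    rcases hab with rfl | rfl
    · rfl
    · unfold arcW
      exact ind_congr ⟨fun h => h.symm, fun h => h.symm⟩

theorem WW_orients {P : Type} (A : ℂ) (N : ℕ) (D : Diagram P) (U : UDiagram P) (h : Orients D U)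
    (col : P → Fin N) : 
    WW A D.arcs D.crossings col = WW A U.std.arcs U.std.crossings col := by
  obtain ⟨h1, h2⟩ := h
  unfold WW UDiagram.std
  congr 1
  · exact arcs_orients N col h1
  · rw [← h2, List.map_map, List.map_map]
    congr 1

theorem bracket_orients {P : Type} [Fintype P] [DecidableEq P] [Nonempty P] (D : Diagram P) 
    (U : UDiagram P) (h : Orients D U) : D.bracket = U.std.bracket := by
  apply eq_of_ev
  intro N hN
  have hN0 : (N : ℂ) ≠ 0 := by
    exact_mod_cast (by omega : N ≠ 0)
  apply mul_left_cancel₀ hN0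
  rw [ev_bracket, ev_bracket]
  exact Finset.sum_congr rfl fun col _ => WW_orients _ N D U h col

theorem bracket_of_unlink {P : Type} [Fintype P] [DecidableEq P] [Nonempty P] (c : ℕ)
    (U : UDiagram P) (h : UnlinkJones c U) :
    ∃ (m ε : ℤ), U.std.bracket = C ε * T m * (-T 2 - T (-2)) ^ (c - 1) := by
  obtain ⟨D, hD, _, hf⟩ := h
  rw [← bracket_orients D U hD]
  unfold Diagram.fPoly at hf
  refine ⟨3 * D.writhe, if Even D.writhe then 1 else -1, ?_⟩
  rw [← hf]
  have h1 : (T (3 * D.writhe) : ℤ[T;T⁻¹]) * T (-3 * D.writhe) = 1 := by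
    rw [← T_add]
    have : 3 * D.writhe + -3 * D.writhe = 0 := by ring
    rw [this, T_zero]
  by_cases hw : Even D.writhe
  · simp only [hw, if_true, one_mul, map_one]
    rw [← mul_assoc, h1, one_mul]
  · simp only [hw, if_false, map_neg, map_one]
    linear_combination (-D.bracket) * h1

end Pool.Agent.H891R2.MT.T6
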