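import Pool.Agent.H891R2.MT.T1b
import Pool.Agent.H891R2.MT.T2
import Pool.Agent.H891R2.MT.T3a
import Pool.Agent.H891R2.MT.T3c
import Pool.Agent.H891R2.MT.T3e
import Pool.Agent.H891R2.MT.T4a
import Pool.Agent.H891R2.MT.T4b
import Pool.Agent.H891R2.MT.T5
import Pool.Agent.H891R2.MT.T6

set_option autoImplicit false

namespace Pool.Agent.H891R2.MT

open Finset LaurentPolynomial Pool.Agent.H891R2.Jones

variable {k : ℕ}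

/-! ## T1: the transfer through the bands -/

/-- the coefficient of the cut band -/
noncomputable def gg (A : ℂ) (N : ℕ) (m : ℤ) : ℂ := ((-A⁻¹ ^ 3) ^ m - A ^ m) / N

/-- T1b: the whole diagram -/
theorem transfer (Γ : Ribbon k) (n : Fin k → ℤ) {A : ℂ} (hA : A ≠ 0) {N : ℕ} (hN : N ≠ 0)
    (hNA : (N : ℂ) = -A^2 - A⁻¹^2) :
    ∑ col : Ribbon.Pt n → Fin N, WW A (Γ.link n).std.arcs (Γ.link n).std.crossings col =
      ∑ S : Finset (Fin k), (∏ e ∈ S, A ^ n e) * (∏ e ∈ Sᶜ, gg A N (n e)) * (N : ℂ) ^ Γ.curves S :=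
  T1b.transfer Γ n hA hN hNA

/-! ## T2: Euler's formula for the states of a planar ribbon graph -/

theorem curves_eq (Γ : Ribbon k) (hΓ : Γ.Planar) (S : Finset (Fin k)) :
    (Γ.curves S : ℤ) = S.card - Γ.verts + 2 * Γ.comps S :=
  T2.curves_eq Γ hΓ S

/-! ## T3: the polynomials -/

theorem comps_erase (Γ : Ribbon k) (S : Finset (Fin k)) (e : Fin k) (he : e ∈ S) :
    Γ.comps S ≤ Γ.comps (S.erase e) ∧ Γ.comps (S.erase e) ≤ Γ.comps S + 1 :=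
  T3a.comps_erase Γ S e he

theorem cpoly_bridge (Γ : Ribbon k) (S : Finset (Fin k)) (e : Fin k) (he : e ∈ S)
    (h : Γ.comps (S.erase e) = Γ.comps S + 1) : Γ.cpoly S = 0 :=
  T3a.cpoly_bridge Γ S e he h

theorem cpoly_monic (Γ : Ribbon k) (S : Finset (Fin k))
    (h : ∀ e ∈ S, Γ.comps (S.erase e) = Γ.comps S) : 
    (Γ.cpoly S).Monic ∧ (Γ.cpoly S).natDegree = S.card + Γ.comps S :=
  T3a.cpoly_monic Γ S h

/-- three subgraphs without bridges -/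
theorem cpoly_three (Γ : Ribbon k) (hk : Γ.verts + 1 ≤ k) (hΓ : Γ.comps Finset.univ = 1) :
    ∃ S1 S2 S3 : Finset (Fin k), S1 ≠ S2 ∧ S1 ≠ S3 ∧ S2 ≠ S3 ∧ 
      Γ.cpoly S1 ≠ 0 ∧ Γ.cpoly S2 ≠ 0 ∧ Γ.cpoly S3 ≠ 0 :=
  T3c.cpoly_three Γ (fun S e he => comps_erase Γ S e he) (fun S h => cpoly_monic Γ S h) hk hΓ

/-- expansion of the state sum (finite sums; uses `curves_eq`) -/
theorem expand (Γ : Ribbon k) (hΓ : Γ.Planar) {N : ℕ} (hN : N ≠ 0) (x y : Fin k → ℂ) :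
    (N : ℂ) ^ (Γ.verts + k) * ∑ S : Finset (Fin k), (∏ e ∈ S, x e) * (∏ e ∈ Sᶜ, (y e - x e) / N) * 
      (N : ℂ) ^ Γ.curves S =
    ∑ S : Finset (Fin k), (∏ e ∈ S, x e) * (∏ e ∈ Sᶜ, y e) * 
      Polynomial.aeval ((N : ℂ) ^ 2) (Γ.cpoly S) :=
  T3e.expand Γ (fun S => curves_eq Γ hΓ S) hN x y

/-! ## T4: the cluster argument for Laurent polynomials -/

/-- the indicator vector -/
def chi (S : Finset (Fin k)) : Fin k → ℤ := fun e => if e ∈ S then 1 else 0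

/-- T4a: two terms do not cancel -/
theorem pair_ne_zero (p q : Polynomial ℤ) (hp : p.Monic) (hq : q.Monic) (a b : ℤ) :
    ((-1 : ℤ[T;T⁻¹]) ^ a.natAbs * T (4 * a)) * Polynomial.aeval ((-T 2 - T (-2)) ^ 2 : ℤ[T;T⁻¹]) p + 
    ((-1 : ℤ[T;T⁻¹]) ^ b.natAbs * T (4 * b)) * Polynomial.aeval ((-T 2 - T (-2)) ^ 2 : ℤ[T;T⁻¹]) q ≠ 0 :=
  T4a.pair_ne_zero p q hp hq a b

/-- T4b -/
theorem cluster (c : Finset (Fin k) → Polynomial ℤ) (D M : ℕ) 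
    (hc : ∀ S, c S = 0 ∨ (c S).Monic) (hD : ∀ S, (c S).natDegree ≤ D)
    (h3 : ∃ S1 S2 S3 : Finset (Fin k), S1 ≠ S2 ∧ S1 ≠ S3 ∧ S2 ≠ S3 ∧ c S1 ≠ 0 ∧ c S2 ≠ 0 ∧ c S3 ≠ 0)
    (n : Fin k → ℤ) (m : ℤ) (ε : ℤ) 
    (h : ∑ S : Finset (Fin k), ((-1 : ℤ[T;T⁻¹]) ^ (nS n S).natAbs * T (4 * nS n S)) * 
        Polynomial.aeval ((-T 2 - T (-2)) ^ 2 : ℤ[T;T⁻¹]) (c S) = 
      C ε * T m * (-T 2 - T (-2)) ^ M) :
    ∃ S1 S2 S3 S4 : Finset (Fin k), c S1 ≠ 0 ∧ c S2 ≠ 0 ∧ c S3 ≠ 0 ∧ c S4 ≠ 0 ∧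
      (∀ a b : ℤ, (∀ e, a * (chi S1 e - chi S2 e) + b * (chi S3 e - chi S4 e) = 0) → a = 0 ∧ b = 0) ∧
      |nS n S1 - nS n S2| ≤ 6 * D + M + 4 ∧ |nS n S3 - nS n S4| ≤ 6 * D + M + 4 :=
  T4b.cluster (fun p q hp hq a b => pair_ne_zero p q hp hq a b) c D M hc hD h3 n m ε h

/-! ## T5: counting -/

theorem count_box (h1 h2 : Fin k → ℤ) 
    (hh : ∀ a b : ℤ, (∀ e, a * h1 e + b * h2 e = 0) → a = 0 ∧ b = 0) (L N : ℕ) :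
    {n : Fin k → ℤ | (∀ e, |n e| ≤ N) ∧ |∑ e, h1 e * n e| ≤ L ∧ |∑ e, h2 e * n e| ≤ L}.ncard ≤ 
      (2 * L + 1) ^ 2 * (2 * N + 1) ^ (k - 2) :=
  T5.count_box h1 h2 hh L N

end Pool.Agent.H891R2.MT
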