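import Pool.Agent.H891R2.Jones.Diagram

set_option autoImplicit false

/-!
Link diagrams of twisted ribbon graphs: bands with `n e` half twists along the edges `e` of a ribbon
graph (= every link diagram, if all `n e = ±1`: Tait graph).
-/

namespace Pool.Agent.H891R2.MT

open Finset LaurentPolynomial Pool.Agent.H891R2.Jones

/-- An unoriented link diagram: marked points `P`; arcs (pieces of strands without crossings) joining
two marked points; crossings `(a, b, c, d)`, where `a, b, c, d` are the four marked points around the
crossing in counterclockwise order, the under-strand joins `a` and `c` and the over-strand joins `b`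
and `d`. -/
structure UDiagram (P : Type) where
  arcs : List (P × P)
  crossings : List (P × P × P × P)

/-- the oriented diagram `D` is the unoriented diagram `U` with some choice of directions -/
def Orients {P : Type} (D : Diagram P) (U : UDiagram P) : Prop :=
  List.Forall₂ (fun x y : P × P => x = y ∨ x = y.swap) D.arcs U.arcs ∧
    D.crossings.map (fun x => (x.a, x.b, x.c, x.d)) = U.crossings

/-- `U` can be oriented such that the normalised Kauffman bracket (Jones polynomial) is the one of
the unlink with `c` components (for `c = 1`: of the unknot). -/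
def UnlinkJones {P : Type} [DecidableEq P] (c : ℕ) (U : UDiagram P) : Prop :=
  ∃ D : Diagram P, Orients D U ∧ D.IsClosed ∧ D.fPoly = (-T 2 - T (-2)) ^ (c - 1)

/-- A ribbon graph with edges `Fin k`: the edge `e` has the two darts (half-edges) `(e, false)` and
`(e, true)`, and `rot` maps a dart to the next dart (counterclockwise) at the same vertex. -/
structure Ribbon (k : ℕ) where
  rot : Equiv.Perm (Fin k × Bool)

/-- the other dart of the same edge -/
def flip {k : ℕ} (d : Fin k × Bool) : Fin k × Bool := (d.1, !d.2)

namespace Ribbon

variable {k : ℕ}

/-- the number of connected components of the spanning subgraph with edge set `S` -/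
noncomputable def comps (Γ : Ribbon k) (S : Finset (Fin k)) : ℕ :=
  Nat.card (Quot (fun x y : Fin k × Bool => Γ.rot x = y ∨ (x.1 ∈ S ∧ y = flip x)))

/-- the number of vertices: the cycles of `rot` -/
noncomputable def verts (Γ : Ribbon k) : ℕ :=
  Nat.card (Quot (fun x y : Fin k × Bool => Γ.rot x = y))

/-- the number of faces: the boundary curves of the untwisted ribbon surface -/
noncomputable def faces (Γ : Ribbon k) : ℕ :=
  Nat.card (Quot (fun x y : Fin k × Bool => flip (Γ.rot x) = y))

/-- the ribbon graph is connected and planar (Euler's formula) -/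
def Planar (Γ : Ribbon k) : Prop := Γ.comps Finset.univ = 1 ∧ Γ.verts + Γ.faces = k + 2

/-- marked points: `|n e| + 1` levels along the band `e` (level `0` at the dart `(e, false)`), at
each level one point on the left (`true`) and one on the right (`false`) side of the band, seen in
the direction from `(e, false)` to `(e, true)` -/
abbrev Pt (n : Fin k → ℤ) : Type := Σ e : Fin k, Fin ((n e).natAbs + 1) × Bool

/-- the marked point at the left side of the dart `d`, looking away from its vertex -/
def left (n : Fin k → ℤ) (d : Fin k × Bool) : Pt n :=
  if d.2 then ⟨d.1, Fin.last _, false⟩ else ⟨d.1, 0, true⟩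

/-- the marked point at the right side of the dart `d`, looking away from its vertex -/
def right (n : Fin k → ℤ) (d : Fin k × Bool) : Pt n :=
  if d.2 then ⟨d.1, Fin.last _, true⟩ else ⟨d.1, 0, false⟩

/-- the crossing between the levels `j` and `j + 1` of the band `e` -/
def twistCrossing (n : Fin k → ℤ) (e : Fin k) (j : Fin (n e).natAbs) :
    Pt n × Pt n × Pt n × Pt n :=
  if 0 < n e then (⟨e, j.castSucc, false⟩, ⟨e, j.succ, false⟩, ⟨e, j.succ, true⟩, ⟨e, j.castSucc, true⟩)
  else (⟨e, j.castSucc, true⟩, ⟨e, j.castSucc, false⟩, ⟨e, j.succ, false⟩, ⟨e, j.succ, true⟩)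

/-- The boundary of the surface which consists of a disc for every vertex and a band with `n e`
half twists for every edge `e` (`|n e|` crossings, of the kind given by the sign of `n e`). -/
def link (Γ : Ribbon k) (n : Fin k → ℤ) : UDiagram (Pt n) where
  arcs := (List.finRange k).flatMap (fun e => 
    [(left n (e, false), right n (Γ.rot (e, false))), (left n (e, true), right n (Γ.rot (e, true)))])
  crossings := (List.finRange k).flatMap (fun e => (List.finRange (n e).natAbs).map (twistCrossing n e))

/-! ### auxiliary notions -/

/-- the corners: a point on the left (`true`) and on the right (`false`) side of every dart; in the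
state `S` the band `e` is kept (untwisted) for `e ∈ S` and cut for `e ∉ S`. -/
def Cor (Γ : Ribbon k) (S : Finset (Fin k)) (x y : (Fin k × Bool) × Bool) : Prop :=
  (x.2 = true ∧ y = (Γ.rot x.1, false)) ∨ (x.1.1 ∈ S ∧ y = (flip x.1, !x.2)) ∨
    (x.1.1 ∉ S ∧ y = (x.1, !x.2))

/-- number of closed curves of the state `S` -/
noncomputable def curves (Γ : Ribbon k) (S : Finset (Fin k)) : ℕ := Nat.card (Quot (Γ.Cor S))

/-- `X^v` times the flow polynomial of the spanning subgraph `S` -/
noncomputable def cpoly (Γ : Ribbon k) (S : Finset (Fin k)) : Polynomial ℤ :=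
  ∑ R ∈ S.powerset, (-1) ^ (S.card - R.card) * Polynomial.X ^ (R.card + Γ.comps R)

end Ribbon

/-- `n(S)` -/
def nS {k : ℕ} (n : Fin k → ℤ) (S : Finset (Fin k)) : ℤ := ∑ e ∈ S, n e

/-- the oriented diagram with arbitrary directions -/
def UDiagram.std {P : Type} (U : UDiagram P) : Diagram P where
  arcs := U.arcs
  crossings := U.crossings.map (fun x => ⟨x.1, x.2.1, x.2.2.1, x.2.2.2, true, true⟩)

end Pool.Agent.H891R2.MT
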