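import Pool.Agent.H891R2.MT.Defs
import Pool.Agent.H891R2.Jones.Final

set_option autoImplicit false

namespace Pool.Agent.H891R2.MT.T1a

open Finset LaurentPolynomial Pool.Agent.H891R2.Jones

/-- the coefficient of the cut band -/
noncomputable def gg (A : ℂ) (N : ℕ) (m : ℤ) : ℂ := ((-A⁻¹ ^ 3) ^ m - A ^ m) / N

/-- weight of one crossing between a level coloured by `x` and the next level coloured by `y`
(`true` = left, `false` = right); `pos` = the sign of the twist. -/
noncomputable def stepW (A : ℂ) {N : ℕ} (pos : Bool) (x y : Bool → Fin N) : ℂ :=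
  if pos then A * ind (x = y) + A⁻¹ * ind (x true = x false ∧ y true = y false)
  else A⁻¹ * ind (x = y) + A * ind (x true = x false ∧ y true = y false)

theorem ind_and (p q : Prop) : (ind (p ∧ q) : ℂ) = ind p * ind q := by
  by_cases hp : p <;> by_cases hq : q <;> simp [ind, hp, hq]

theorem sum_ind_eq {S : Type} [Fintype S] [DecidableEq S] (x : S) (f : S → ℂ) :
    ∑ u, ind (x = u) * f u = f x := by
  rw [Finset.sum_eq_single x]
  · simp [ind]
  · intro b _ hb
    have : ¬ (x = b) := fun h => hb h.symm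
    simp [ind, this]
  · intro h; exact absurd (mem_univ _) h

/-- the abstract transfer -/
theorem rec_sum {S : Type} [Fintype S] [DecidableEq S] (st : S → S → ℂ) (r : ℕ) (x y : S) :
    ∑ z : Fin (r + 2) → S, ind (z 0 = x ∧ z (Fin.last _) = y) *
      ∏ j : Fin (r + 1), st (z j.castSucc) (z j.succ) =
    ∑ u, st x u * ∑ z : Fin (r + 1) → S, ind (z 0 = u ∧ z (Fin.last _) = y) *
      ∏ j : Fin r, st (z j.castSucc) (z j.succ) := by
  have h1 : ∑ z : Fin (r + 2) → S, ind (z 0 = x ∧ z (Fin.last _) = y) *
      ∏ j : Fin (r + 1), st (z j.castSucc) (z j.succ) =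
      ∑ p : S × (Fin (r + 1) → S), ind (p.1 = x ∧ p.2 (Fin.last _) = y) *
        (st p.1 (p.2 0) * ∏ j : Fin r, st (p.2 j.castSucc) (p.2 j.succ)) := by
    refine Fintype.sum_equiv (Fin.consEquiv (fun _ => S)).symm _ _ ?_
    intro z
    rw [Fin.prod_univ_succ]
    rfl
  rw [h1, Fintype.sum_prod_type, Finset.sum_comm]
  simp_rw [Finset.mul_sum]
  rw [Finset.sum_comm (s := (univ : Finset S))]
  refine Finset.sum_congr rfl fun z _ => ?_
  have h2 : ∀ w : S, (ind (w = x ∧ z (Fin.last _) = y) : ℂ) *
        (st w (z 0) * ∏ j : Fin r, st (z j.castSucc) (z j.succ)) =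
      ind (x = w) * (ind (z (Fin.last _) = y) * (st w (z 0) *
        ∏ j : Fin r, st (z j.castSucc) (z j.succ))) := by
    intro w
    rw [ind_and, ind_congr (eq_comm (a := w) (b := x))]
    ring
  simp_rw [h2]
  rw [sum_ind_eq]
  have h3 : ∀ u : S, st x u * ((ind (z 0 = u ∧ z (Fin.last _) = y) : ℂ) *
      ∏ j : Fin r, st (z j.castSucc) (z j.succ)) =
      ind (z 0 = u) * (st x u * (ind (z (Fin.last _) = y) *
        ∏ j : Fin r, st (z j.castSucc) (z j.succ))) := by
    intro u
    rw [ind_and]
    ring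
  simp_rw [h3]
  rw [sum_ind_eq]
  ring

theorem card_E {N : ℕ} : ∑ u : Bool → Fin N, (ind (u true = u false) : ℂ) = N := by
  have h1 : ∑ u : Bool → Fin N, (ind (u true = u false) : ℂ) =
      ∑ p : Fin N × Fin N, (ind (p.1 = p.2) : ℂ) := by
    refine Fintype.sum_equiv (Equiv.boolArrowEquivProd (Fin N)) _ _ ?_
    intro u
    exact ind_congr (eq_comm)
  rw [h1, Fintype.sum_prod_type]
  have h2 : ∀ a : Fin N, ∑ b : Fin N, (ind (a = b) : ℂ) = 1 := by
    intro a
    have := sum_ind_eq a (fun _ => (1 : ℂ))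
    simpa using this
  simp [h2]

theorem band_gen {N : ℕ} (hN : N ≠ 0) (α β : ℂ) (st : (Bool → Fin N) → (Bool → Fin N) → ℂ)
    (hst : ∀ x y, st x y = α * ind (x = y) + β * ind (x true = x false ∧ y true = y false))
    (r : ℕ) (x y : Bool → Fin N) :
    ∑ z : Fin (r + 1) → Bool → Fin N, ind (z 0 = x ∧ z (Fin.last _) = y) *
      ∏ j : Fin r, st (z j.castSucc) (z j.succ) =
    α ^ r * ind (x = y) +
      (((α + β * N) ^ r - α ^ r) / N) * ind (x true = x false ∧ y true = y false) := by
  have hN' : (N : ℂ) ≠ 0 := by exact_mod_cast hN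
  induction r generalizing x with
  | zero =>
    have h1 : ∑ z : Fin 1 → Bool → Fin N, (ind (z 0 = x ∧ z (Fin.last _) = y) : ℂ) *
        ∏ j : Fin 0, st (z j.castSucc) (z j.succ) =
        ∑ u : Bool → Fin N, ind (x = u) * ind (u = y) := by
      refine Fintype.sum_equiv (Equiv.funUnique (Fin 1) (Bool → Fin N)) _ _ ?_
      intro z
      rw [Finset.univ_eq_empty, Finset.prod_empty, mul_one, ind_and]
      congr 1
      exact ind_congr eq_comm
    rw [h1, sum_ind_eq]
    simp
  | succ r ih =>
    rw [rec_sum]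
    simp_rw [ih, hst]
    have e : ∀ u : Bool → Fin N, (α * ind (x = u) + β * ind (x true = x false ∧ u true = u false)) *
        (α ^ r * ind (u = y) + ((α + β * N) ^ r - α ^ r) / N *
          ind (u true = u false ∧ y true = y false)) =
        ind (x = u) * (α * (α ^ r * ind (u = y) + ((α + β * N) ^ r - α ^ r) / N *
          ind (u true = u false ∧ y true = y false))) +
        (ind (y = u) * (β * α ^ r * ind (x true = x false ∧ u true = u false)) +
        β * (((α + β * N) ^ r - α ^ r) / N) * ind (x true = x false ∧ y true = y false) *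
          ind (u true = u false)) := by
      intro u
      simp only [ind_and]
      rw [ind_congr (eq_comm (a := u) (b := y))]
      have : (ind (u true = u false) : ℂ) * ind (u true = u false) = ind (u true = u false) := by
        by_cases h : u true = u false <;> simp [ind, h]
      linear_combination (β * ind (x true = x false) * ((α + β * N) ^ r - α ^ r) / N *
        ind (y true = y false)) * this
    simp_rw [e]
    rw [Finset.sum_add_distrib, Finset.sum_add_distrib, sum_ind_eq, sum_ind_eq, ← Finset.mul_sum,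
      card_E]
    field_simp
    ring

/-- T1a: sum over the colours of the interior levels of one band (induction on the number of levels) -/
theorem band_sum {A : ℂ} (hA : A ≠ 0) {N : ℕ} (hN : N ≠ 0) (hNA : (N : ℂ) = -A^2 - A⁻¹^2) (m : ℤ)
    (x y : Bool → Fin N) :
    ∑ z : Fin (m.natAbs + 1) → Bool → Fin N, 
      ind (z 0 = x ∧ z (Fin.last _) = y) * ∏ j : Fin m.natAbs, stepW A (decide (0 < m)) (z j.castSucc) (z j.succ)
      = A ^ m * ind (x = y) + gg A N m * ind (x true = x false ∧ y true = y false) := by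
  by_cases hm : 0 < m
  · have hd : decide (0 < m) = true := decide_eq_true hm
    rw [hd]
    rw [band_gen hN A A⁻¹ (stepW A true) (fun x y => by simp [stepW])]
    have e1 : A + A⁻¹ * N = -A⁻¹ ^ 3 := by
      rw [hNA]; field_simp; ring
    have e2 : m = (m.natAbs : ℤ) := by omega
    rw [e1, gg]
    conv_rhs => rw [e2, zpow_natCast, zpow_natCast]
  · have hd : decide (0 < m) = false := decide_eq_false hm
    rw [hd]
    rw [band_gen hN A⁻¹ A (stepW A false) (fun x y => by simp [stepW])]
    have e1 : A⁻¹ + A * N = (-A⁻¹ ^ 3)⁻¹ := by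
      rw [hNA, inv_neg, ← inv_pow, inv_inv]; field_simp; ring
    have e2 : m = -(m.natAbs : ℤ) := by omega
    rw [e1, gg]
    conv_rhs => rw [e2, zpow_neg, zpow_neg, zpow_natCast, zpow_natCast, ← inv_pow, ← inv_pow]

end Pool.Agent.H891R2.MT.T1a
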