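import Pool.Agent.H891R2.MT.Fin

set_option autoImplicit false

/-! The multi-twist theorem for Jones polynomials of bounded span. -/

namespace Pool.Agent.H891R2.MT

open Finset LaurentPolynomial Pool.Agent.H891R2.Jones

variable {k : ℕ}

/-- `U` can be oriented such that the normalised Kauffman bracket is supported in an interval of
length at most `4 s`, that is, the Jones polynomial (in the variable `t = A⁻⁴`) has span at most
`s`. -/
def SpanLE {P : Type} [DecidableEq P] (s : ℕ) (U : UDiagram P) : Prop :=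
  ∃ D : Diagram P, Orients D U ∧ D.IsClosed ∧ 
    ∃ lo : ℤ, ∀ j : ℤ, D.fPoly.coeff j ≠ 0 → lo ≤ j ∧ j ≤ lo + 4 * s

namespace T7

open T4b

/-- the cluster argument with an arbitrary right-hand side of small span (from T4b, helper114) -/
theorem cluster2
    (pair_ne_zero : ∀ (p q : Polynomial ℤ) (hp : p.Monic) (hq : q.Monic) (a b : ℤ),
      ((-1 : ℤ[T;T⁻¹]) ^ a.natAbs * T (4 * a)) *
        Polynomial.aeval ((-T 2 - T (-2)) ^ 2 : ℤ[T;T⁻¹]) p +
      ((-1 : ℤ[T;T⁻¹]) ^ b.natAbs * T (4 * b)) *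
        Polynomial.aeval ((-T 2 - T (-2)) ^ 2 : ℤ[T;T⁻¹]) q ≠ 0)
    (c : Finset (Fin k) → Polynomial ℤ) (D M : ℕ)
    (hc : ∀ S, c S = 0 ∨ (c S).Monic) (hD : ∀ S, (c S).natDegree ≤ D)
    (h3 : ∃ S1 S2 S3 : Finset (Fin k), S1 ≠ S2 ∧ S1 ≠ S3 ∧ S2 ≠ S3 ∧ c S1 ≠ 0 ∧ c S2 ≠ 0 ∧ c S3 ≠ 0)
    (n : Fin k → ℤ) (g : ℤ[T;T⁻¹]) (lo hi : ℤ) (hg : SIn g lo hi) (hlh : hi - lo ≤ 4 * M)
    (h : ∑ S : Finset (Fin k), ((-1 : ℤ[T;T⁻¹]) ^ (nS n S).natAbs * T (4 * nS n S)) *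
        Polynomial.aeval ((-T 2 - T (-2)) ^ 2 : ℤ[T;T⁻¹]) (c S) =
      g) :
    ∃ S1 S2 S3 S4 : Finset (Fin k), c S1 ≠ 0 ∧ c S2 ≠ 0 ∧ c S3 ≠ 0 ∧ c S4 ≠ 0 ∧
      (∀ a b : ℤ, (∀ e, a * (MT.chi S1 e - MT.chi S2 e) + b * (MT.chi S3 e - MT.chi S4 e) = 0) → a = 0 ∧ b = 0) ∧
      |nS n S1 - nS n S2| ≤ 6 * D + M + 4 ∧ |nS n S3 - nS n S4| ≤ 6 * D + M + 4 := by
  classical
  by_contra hcon
  have hno : ∀ S S' S'' : Finset (Fin k), c S ≠ 0 → c S' ≠ 0 → c S'' ≠ 0 → S ≠ S' → S ≠ S'' →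
      S' ≠ S'' → |nS n S - nS n S'| ≤ 6 * D + M + 4 → |nS n S - nS n S''| ≤ 6 * D + M + 4 →
      False := by
    intro S S' S'' h1 h2 h3 h4 h5 h6 h7 h8
    exact hcon ⟨S, S', S, S'', h1, h2, h1, h3, not_collinear h4 h5 h6, h7, h8⟩
  obtain ⟨A1, A2, A3, hA12, hA13, hA23, hA1, hA2, hA3⟩ := h3
  -- maximal and minimal elements
  set SS : Finset (Finset (Fin k)) := Finset.univ.filter (fun S => c S ≠ 0) with hSS
  have hSSne : SS.Nonempty := ⟨A1, by simp [hSS, hA1]⟩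
  obtain ⟨S1, hS1, hmax⟩ := SS.exists_max_image (fun S => nS n S) hSSne
  obtain ⟨S0, hS0, hmin⟩ := SS.exists_min_image (fun S => nS n S) hSSne
  have hS1' : c S1 ≠ 0 := (Finset.mem_filter.mp hS1).2
  have hS0' : c S0 ≠ 0 := (Finset.mem_filter.mp hS0).2
  have hmax' : ∀ S, c S ≠ 0 → nS n S ≤ nS n S1 := fun S hS =>
    hmax S (Finset.mem_filter.mpr ⟨Finset.mem_univ _, hS⟩)
  have hmin' : ∀ S, c S ≠ 0 → nS n S0 ≤ nS n S := fun S hS =>
    hmin S (Finset.mem_filter.mpr ⟨Finset.mem_univ _, hS⟩)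
  have hbig : (6 * D + M + 4 : ℤ) < nS n S1 - nS n S0 := by
    by_contra hle
    push Not at hle
    have b1 := hmax' A1 hA1
    have b2 := hmax' A2 hA2
    have b3 := hmax' A3 hA3
    have b4 := hmin' A1 hA1
    have b5 := hmin' A2 hA2
    have b6 := hmin' A3 hA3
    apply hno A1 A2 A3 hA1 hA2 hA3 hA12 hA13 hA23
    · rw [abs_le]; omega
    · rw [abs_le]; omega
  -- coefficients
  set t : Finset (Fin k) → ℤ → ℤ := fun S j => (term c n S).coeff j with ht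
  have hz : ∀ S, c S = 0 → term c n S = 0 := by
    intro S hS
    unfold term
    rw [hS, map_zero, mul_zero]
  have hm : ∀ S, c S ≠ 0 → (c S).Monic := fun S hS => (hc S).resolve_left hS
  have h0 : ∀ S j, t S j ≠ 0 → c S ≠ 0 ∧ 4 * nS n S - 4 * D ≤ j ∧ j ≤ 4 * nS n S + 4 * D := by
    intro S j hj
    refine ⟨fun hS => hj ?_, SIn_term hD n S j hj⟩
    simp only [ht]
    rw [hz S hS]
    rfl
  have hpair : ∀ S S', c S ≠ 0 → c S' ≠ 0 → ∃ j, t S j + t S' j ≠ 0 := by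
    intro S S' hS hS'
    by_contra hcc
    push Not at hcc
    apply pair_ne_zero (c S) (c S') (hm S hS) (hm S' hS') (nS n S) (nS n S')
    change term c n S + term c n S' = 0
    apply LaurentPolynomial.ext
    intro j
    rw [AddMonoidAlgebra.coeff_add, Finsupp.add_apply]
    exact hcc j
  have hone : ∀ S, c S ≠ 0 → ∃ j, t S j ≠ 0 := by
    intro S hS
    obtain ⟨j, hj⟩ := hpair S S hS hS
    refine ⟨j, fun h0 => hj ?_⟩
    rw [h0, add_zero]
  have hsum : ∀ j, ∑ S, t S j = g.coeff j := by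
    intro j
    rw [← h, AddMonoidAlgebra.coeff_sum, Finsupp.finsetSum_apply]
    rfl
  have hno2 : ∀ S S' S'' : Finset (Fin k), c S ≠ 0 → c S' ≠ 0 → c S'' ≠ 0 → S ≠ S' → S ≠ S'' →
      S' ≠ S'' → |nS n S - nS n S'| ≤ 4 * D + 4 → |nS n S - nS n S''| ≤ 4 * D + 4 → False := by
    intro S S' S'' g1 g2 g3 g4 g5 g6 g7 g8
    exact hno S S' S'' g1 g2 g3 g4 g5 g6 (g7.trans (by omega)) (g8.trans (by omega))
  obtain ⟨j1, hj1, hj1'⟩ := top_cluster t (fun S => nS n S) (fun S => c S ≠ 0) D h0 hone hpair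
    hno2 S1 hS1' hmax'
  obtain ⟨j2, hj2, hj2'⟩ := top_cluster (fun S j => t S (-j)) (fun S => -nS n S)
    (fun S => c S ≠ 0) D
    (by
      intro S j hj
      obtain ⟨g1, g2, g3⟩ := h0 S (-j) hj
      exact ⟨g1, by omega, by omega⟩)
    (by
      intro S hS
      obtain ⟨j, hj⟩ := hone S hS
      exact ⟨-j, by simpa using hj⟩)
    (by
      intro S S' hS hS'
      obtain ⟨j, hj⟩ := hpair S S' hS hS'
      exact ⟨-j, by simpa using hj⟩)
    (by
      intro S S' S'' g1 g2 g3 g4 g5 g6 g7 g8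
      apply hno2 S S' S'' g1 g2 g3 g4 g5 g6
      · rw [abs_le] at g7 ⊢; omega
      · rw [abs_le] at g8 ⊢; omega)
    S0 hS0' (by
      intro S hS
      have := hmin' S hS
      omega)
  rw [hsum] at hj1'
  rw [hsum] at hj2'
  have r1 := hg j1 hj1'
  have r2 := hg (-j2) hj2'
  omega


theorem bracket_span {P : Type} [Fintype P] [DecidableEq P] [Nonempty P] (s : ℕ)
    (U : UDiagram P) (h : SpanLE s U) : ∃ lo : ℤ, SIn U.std.bracket lo (lo + 4 * s) := by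
  obtain ⟨D, hD, _, lo, hf⟩ := h
  rw [← T6.bracket_orients D U hD]
  have h1 : (T (3 * D.writhe) : ℤ[T;T⁻¹]) * T (-3 * D.writhe) = 1 := by
    rw [← T_add]
    have : 3 * D.writhe + -3 * D.writhe = 0 := by ring
    rw [this, T_zero]
  have h2 : D.bracket = C (if Even D.writhe then (1:ℤ) else -1) * T (3 * D.writhe) * D.fPoly := by
    unfold Diagram.fPoly
    by_cases hw : Even D.writhe
    · simp only [hw, if_true, one_mul, map_one]
      rw [← mul_assoc, h1, one_mul]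
    · simp only [hw, if_false, map_neg, map_one]
      linear_combination (-D.bracket) * h1
  refine ⟨3 * D.writhe + lo, ?_⟩
  rw [h2]
  have h3 : SIn D.fPoly lo (lo + 4 * s) := hf
  exact (((SIn.C _).mul (SIn.T _)).mul h3).mono (by linarith) (by linarith)

end T7

theorem two_relations2 (Γ : Ribbon k) (hΓ : Γ.Planar) (hk : Γ.verts + 1 ≤ k) (n : Fin k → ℤ) (s : ℕ) 
    (h : SpanLE s (Γ.link n)) :
    ∃ S1 S2 S3 S4 : Finset (Fin k), 
      (∀ a b : ℤ, (∀ e, a * (chi S1 e - chi S2 e) + b * (chi S3 e - chi S4 e) = 0) → a = 0 ∧ b = 0) ∧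
      |nS n S1 - nS n S2| ≤ 14 * k + s ∧ |nS n S3 - nS n S4| ≤ 14 * k + s := by
  have hk0 : 0 < k := by omega
  have hne : Nonempty (Ribbon.Pt n) := ⟨⟨⟨0, hk0⟩, 0, true⟩⟩
  obtain ⟨lo, hb⟩ := T7.bracket_span s _ h
  have hid := identity Γ hΓ hk0 n
  have hd : T4b.SIn ((-T 2 - T (-2) : ℤ[T;T⁻¹]) ^ (1 + (Γ.verts + k))) (-2 * (1 + (Γ.verts + k) : ℕ))
      (2 * (1 + (Γ.verts + k) : ℕ)) := by
    refine (T4b.SIn_d.pow _).mono ?_ ?_ <;> linarith
  have hg := (((T4b.SIn_sgn (nS n univ).natAbs).mul (T4b.SIn.T (3 * nS n univ))).mul hd).mul hb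
  obtain ⟨S1, S2, S3, S4, _, _, _, _, h1, h2, h3⟩ := T7.cluster2 
    (fun p q hp hq a b => pair_ne_zero p q hp hq a b) Γ.cpoly (2 * k - 1) (s + 1 + Γ.verts + k)
    (fun S => (cpoly_zero_or_monic Γ S).imp id And.left)
    (fun S => by
      rcases cpoly_zero_or_monic Γ S with h1 | ⟨_, h1⟩
      · rw [h1]; simp
      · rw [h1]
        have h2 := comps_le_verts Γ S
        have h3 := card_finset_fin_le S
        omega)
    (cpoly_three Γ hk hΓ.1) n _ _ _ hg (by push_cast; linarith) hid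
  refine ⟨S1, S2, S3, S4, h1, h2.trans ?_, h3.trans ?_⟩ <;> push_cast <;> omega

theorem main2 (Γ : Ribbon k) (hΓ : Γ.Planar) (hk : Γ.verts + 1 ≤ k) (c : ℕ) (N : ℕ) :
    {n : Fin k → ℤ | (∀ e, |n e| ≤ N) ∧ SpanLE c (Γ.link n)}.ncard ≤ 
      9 ^ k * (28 * k + 2 * c + 1) ^ 2 * (2 * N + 1) ^ (k - 2) := by
  classical
  set I : Finset ((Fin k → ℤ) × (Fin k → ℤ)) := 
    (Fintype.piFinset (fun _ => ({-1, 0, 1} : Finset ℤ))) ×ˢ 
      (Fintype.piFinset (fun _ => ({-1, 0, 1} : Finset ℤ))) with hI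
  have hIc : I.card = 9 ^ k := by
    rw [hI, Finset.card_product, Fintype.card_piFinset]
    simp only [Finset.prod_const, Finset.card_univ, Fintype.card_fin]
    rw [← mul_pow]
    rfl
  set J := I.filter (fun p => ∀ a b : ℤ, (∀ e, a * p.1 e + b * p.2 e = 0) → a = 0 ∧ b = 0) with hJ
  set B : (Fin k → ℤ) × (Fin k → ℤ) → Set (Fin k → ℤ) := fun p => 
    {n : Fin k → ℤ | (∀ e, |n e| ≤ N) ∧ |∑ e, p.1 e * n e| ≤ (14 * k + c : ℕ) ∧ 
      |∑ e, p.2 e * n e| ≤ (14 * k + c : ℕ)} with hB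
  have hfin : ∀ p, (B p).Finite := by
    intro p
    have : (Set.Finite {n : Fin k → ℤ | ∀ e, |n e| ≤ N}) := by
      have h1 : {n : Fin k → ℤ | ∀ e, |n e| ≤ N} ⊆ Set.pi Set.univ (fun _ => Set.Icc (-(N:ℤ)) N) := by
        intro n hn e _
        exact abs_le.1 (hn e)
      exact (Set.Finite.pi' (fun _ => Set.finite_Icc _ _)).subset (by
        intro n hn e
        exact abs_le.1 (hn e))
    exact this.subset fun n hn => hn.1
  have hsub : {n : Fin k → ℤ | (∀ e, |n e| ≤ N) ∧ SpanLE c (Γ.link n)} ⊆ ⋃ p ∈ J, B p := by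
    rintro n ⟨hn, hu⟩
    obtain ⟨S1, S2, S3, S4, h1, h2, h3⟩ := two_relations2 Γ hΓ hk n c hu
    rw [nS_sub] at h2 h3
    have hchi : ∀ (S S' : Finset (Fin k)) (e : Fin k), chi S e - chi S' e ∈ ({-1, 0, 1} : Finset ℤ) := by
      intro S S' e
      unfold chi
      by_cases h4 : e ∈ S <;> by_cases h5 : e ∈ S' <;> simp [h4, h5]
    refine Set.mem_iUnion₂.2 ⟨(fun e => chi S1 e - chi S2 e, fun e => chi S3 e - chi S4 e), ?_, hn, ?_, ?_⟩
    · rw [hJ, Finset.mem_filter, hI, Finset.mem_product, Fintype.mem_piFinset, Fintype.mem_piFinset]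
      exact ⟨⟨fun e => hchi _ _ _, fun e => hchi _ _ _⟩, h1⟩
    · push_cast
      exact h2
    · push_cast
      exact h3
  calc _ ≤ (⋃ p ∈ J, B p).ncard := Set.ncard_le_ncard hsub 
        (Set.Finite.biUnion (Finset.finite_toSet J) (fun p _ => hfin p))
    _ ≤ ∑ p ∈ J, (B p).ncard := Finset.set_ncard_biUnion_le _ _
    _ ≤ ∑ p ∈ J, (2 * (14 * k + c) + 1) ^ 2 * (2 * N + 1) ^ (k - 2) := by
        refine Finset.sum_le_sum fun p hp => ?_
        exact count_box p.1 p.2 (Finset.mem_filter.1 hp).2 _ _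
    _ = J.card * ((2 * (14 * k + c) + 1) ^ 2 * (2 * N + 1) ^ (k - 2)) := by
        rw [Finset.sum_const, smul_eq_mul]
    _ ≤ 9 ^ k * ((2 * (14 * k + c) + 1) ^ 2 * (2 * N + 1) ^ (k - 2)) := by
        refine Nat.mul_le_mul_right _ ?_
        rw [← hIc]
        exact Finset.card_filter_le _ _
    _ = _ := by
        have : 2 * (14 * k + c) + 1 = 28 * k + 2 * c + 1 := by ring
        rw [this, mul_assoc]


/-- the unlink has a Jones polynomial of small span -/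
theorem span_of_unlink {P : Type} [DecidableEq P] (c : ℕ) (U : UDiagram P) (h : UnlinkJones c U) :
    SpanLE (c - 1) U := by
  obtain ⟨D, h1, h2, h3⟩ := h
  refine ⟨D, h1, h2, -2 * (c - 1 : ℕ), ?_⟩
  rw [h3]
  intro j hj
  have := (T4b.SIn_d.pow (c - 1)) j hj
  constructor <;> linarith [this.1, this.2]

end Pool.Agent.H891R2.MT
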